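import Pool.Agent.H10.RP.Stm
import Pool.Graph.R_pool_sql_team_seeded_63374d34.N892.BW.DUT

/-!
Powers of the Beurling transform: duality and scaling with local square averages, real exponents
(port of N892/BW/DUT.lean).
-/

set_option autoImplicit false

open MeasureTheory ENNReal Filter Topology Complex
open scoped ComplexConjugate

namespace Pool.Agent.H56.RP.DUT

open Pool.Agent.N892.BW Pool.Agent.N892.BW.DUA Pool.Agent.N892.BW.DUT Pool.Agent.H10.RP

theorem pw1 {x m : ℝ} (hx : 0 ≤ x) (hm : 1 < m) : x * x ^ (2 * m - 2) = x ^ (2 * m - 1) := by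
  conv_lhs => rw [← Real.rpow_one x, ← Real.rpow_mul hx, one_mul]
  rw [← Real.rpow_add_of_nonneg hx (by norm_num) (by linarith)]
  congr 1
  ring

theorem pw2 {x m : ℝ} (hx : 0 ≤ x) (hm : 1 < m) : x ^ 2 * x ^ (2 * m - 2) = x ^ (2 * m) := by
  rw [← Real.rpow_natCast, ← Real.rpow_add_of_nonneg hx (by norm_num) (by linarith)]
  congr 1
  push_cast
  ring

theorem holderR (m : ℝ) (hm : 1 < m) : (2 * m).HolderConjugate (qr m) := by
  have h1 : (1 : ℝ) < 2 * m := by linarith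
  have : qr m = Real.conjExponent (2 * m) := rfl
  rw [this]
  exact Real.HolderConjugate.conjExponent h1

theorem avg_holderR {m : ℝ} (hm : 1 < m) (σ : ℂ → ℝ≥0∞) (hσ : Measurable σ) (hσ1 : ∫⁻ y, σ y = 1)
    (f Φ : ℂ → ℂ) (hf : Measurable f) (hΦ : Measurable Φ) :
    ∫⁻ z, ‖f z * Φ z‖ₑ ≤
      (∫⁻ z, (∫⁻ y, σ y * ‖f (z + y)‖ₑ ^ 2) ^ m) ^ (1 / (2 * m)) *
        (∫⁻ z, (∫⁻ y, σ y * ‖Φ (z + y)‖ₑ ^ 2) ^ (qr m / 2)) ^ (1 / qr m) := by
  have hpq := holderR m hm
  have hjf : Measurable (Function.uncurry fun z y : ℂ => σ y * ‖f (z + y)‖ₑ ^ 2) :=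
    (hσ.comp measurable_snd).mul ((hf.comp (measurable_fst.add measurable_snd)).enorm.pow_const _)
  have hjΦ : Measurable (Function.uncurry fun z y : ℂ => σ y * ‖Φ (z + y)‖ₑ ^ 2) :=
    (hσ.comp measurable_snd).mul ((hΦ.comp (measurable_fst.add measurable_snd)).enorm.pow_const _)
  have hj : Measurable (Function.uncurry fun y z : ℂ => σ y * (‖f (z + y)‖ₑ * ‖Φ (z + y)‖ₑ)) :=
    (hσ.comp measurable_fst).mul (((hf.comp (measurable_snd.add measurable_fst)).enorm).mul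
      (hΦ.comp (measurable_snd.add measurable_fst)).enorm)
  have hF : Measurable fun z => (∫⁻ y, σ y * ‖f (z + y)‖ₑ ^ 2) ^ (1 / 2 : ℝ) :=
    (hjf.lintegral_prod_right').pow_const _
  have hG : Measurable fun z => (∫⁻ y, σ y * ‖Φ (z + y)‖ₑ ^ 2) ^ (1 / 2 : ℝ) :=
    (hjΦ.lintegral_prod_right').pow_const _
  calc ∫⁻ z, ‖f z * Φ z‖ₑ = ∫⁻ y, σ y * ∫⁻ z, ‖f z * Φ z‖ₑ := by
        rw [lintegral_mul_const _ hσ, hσ1, one_mul]
    _ = ∫⁻ y, ∫⁻ z, σ y * (‖f (z + y)‖ₑ * ‖Φ (z + y)‖ₑ) := by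
        refine lintegral_congr fun y => ?_
        have hm1 : Measurable fun z => ‖f (z + y) * Φ (z + y)‖ₑ :=
          ((hf.comp (measurable_id.add_const y)).mul
            (hΦ.comp (measurable_id.add_const y))).enorm
        rw [← lintegral_add_right_eq_self (fun z => ‖f z * Φ z‖ₑ) y, ← lintegral_const_mul _ hm1]
        refine lintegral_congr fun z => ?_
        rw [enorm_mul]
    _ = ∫⁻ z, ∫⁻ y, σ y * (‖f (z + y)‖ₑ * ‖Φ (z + y)‖ₑ) :=
        lintegral_lintegral_swap hj.aemeasurable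
    _ ≤ ∫⁻ z, ((fun z => (∫⁻ y, σ y * ‖f (z + y)‖ₑ ^ 2) ^ (1 / 2 : ℝ)) *
          (fun z => (∫⁻ y, σ y * ‖Φ (z + y)‖ₑ ^ 2) ^ (1 / 2 : ℝ))) z := by
        refine lintegral_mono fun z => ?_
        exact cs σ (fun y => ‖f (z + y)‖ₑ) (fun y => ‖Φ (z + y)‖ₑ) hσ
          (hf.comp (measurable_id.const_add z)).enorm (hΦ.comp (measurable_id.const_add z)).enorm
    _ ≤ _ := ENNReal.lintegral_mul_le_Lp_mul_Lq _ hpq hF.aemeasurable hG.aemeasurable
    _ = _ := by
        congr 2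
        · refine lintegral_congr fun z => ?_
          rw [← ENNReal.rpow_mul]
          congr 1
          ring
        · refine lintegral_congr fun z => ?_
          rw [← ENNReal.rpow_mul]
          congr 1
          ring

/-- the hypothesis for the dual operator -/
theorem dual_hyp2R {m : ℝ} {n : ℕ} {B r s A l : ℝ} {χ : ℂ → ℝ} (hn : 1 ≤ n) (hr : 0 < r)
    (H : ∀ ψ : ℂ → ℝ, Cut B 1 s ψ → ∀ g : ℂ → ℂ, Nice g →
      ∫⁻ w, (∫⁻ y, ENNReal.ofReal (sc χ l y) * ‖So n ψ g (w + y)‖ₑ ^ 2) ^ (qr m / 2) ≤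
        ENNReal.ofReal (A ^ (qr m)) * ∫⁻ z, ‖g z‖ₑ ^ (qr m))
    {ψ : ℂ → ℝ} (hψ : Cut B r (r * s) ψ) (φ : ℂ → ℂ) (hφ : Nice φ) :
    ∫⁻ z, (∫⁻ y, ENNReal.ofReal (sc χ (l * r) y) *
        ‖∫ w, kk n ψ (w - (z + y)) * φ w‖ₑ ^ 2) ^ (qr m / 2) ≤
      ENNReal.ofReal (A ^ (qr m)) * ∫⁻ w, ‖φ w‖ₑ ^ (qr m) := by
  have hcut : Cut B 1 s (fun x => ψ (((-r : ℝ) : ℂ) * x)) :=
    cut_scale hr (by rw [abs_neg, abs_of_pos hr]) hψ
  have hnice : Nice (fun z => φ ((r : ℂ) * z)) := by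
    obtain ⟨h1, ⟨M, hM⟩, ⟨R, hR⟩⟩ := hφ
    refine ⟨h1.comp (measurable_const.mul measurable_id), ⟨M, fun x => hM _⟩, ⟨R / r, fun x hx => ?_⟩⟩
    apply hR
    rw [norm_mul, Complex.norm_real, Real.norm_eq_abs, abs_of_pos hr]
    rwa [div_lt_iff₀ hr, mul_comm] at hx
  have hS : ∀ z : ℂ, (∫ w, kk n ψ (w - (r : ℂ) * z) * φ w) =
      So n (fun x => ψ (((-r : ℝ) : ℂ) * x)) (fun z => φ ((r : ℂ) * z)) z := by
    intro z
    have h1 := int_scale (t := r) (fun w => kk n ψ (w - (r : ℂ) * z) * φ w)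
    have hr2 : ((r : ℂ) ^ 2) ≠ 0 := pow_ne_zero _ (by exact_mod_cast hr.ne')
    have h2 : (∫ w, kk n ψ (w - (r : ℂ) * z) * φ w) =
        (r : ℂ) ^ 2 * ∫ w, kk n ψ ((r : ℂ) * w - (r : ℂ) * z) * φ ((r : ℂ) * w) := by
      rw [h1, mul_inv_cancel_left₀ hr2]
    rw [h2, So, ← integral_const_mul]
    refine integral_congr_ae (Filter.Eventually.of_forall fun w => ?_)
    show (r : ℂ) ^ 2 * (kk n ψ ((r : ℂ) * w - (r : ℂ) * z) * φ ((r : ℂ) * w)) =
      kk n (fun x => ψ (((-r : ℝ) : ℂ) * x)) (z - w) * φ ((r : ℂ) * w)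
    have h3 : (r : ℂ) * w - (r : ℂ) * z = ((-r : ℝ) : ℂ) * (z - w) := by
      push_cast
      ring
    rw [h3]
    unfold kk
    rw [Kn_smul hn (neg_ne_zero.2 hr.ne')]
    have h4 : (((-r : ℝ) : ℂ)) ^ 2 = (r : ℂ) ^ 2 := by
      push_cast
      ring
    rw [h4]
    have hr0 : (r : ℂ) ≠ 0 := by exact_mod_cast hr.ne'
    field_simp
  obtain ⟨Φ, hΦ⟩ : ∃ Φ : ℂ → ℂ, Φ = fun z => ∫ w, kk n ψ (w - z) * φ w := ⟨_, rfl⟩
  have hΦ' : ∀ z, ∫ w, kk n ψ (w - z) * φ w = Φ z := fun z => by rw [hΦ]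
  simp only [hΦ'] at hS ⊢
  have h1 := H _ hcut _ hnice
  have hin : ∀ w : ℂ, (∫⁻ y, ENNReal.ofReal (sc χ l y) *
      ‖So n (fun x => ψ (((-r : ℝ) : ℂ) * x)) (fun z => φ ((r : ℂ) * z)) (w + y)‖ₑ ^ 2) =
      ∫⁻ y, ENNReal.ofReal (sc χ (l * r) y) * ‖Φ ((r : ℂ) * w + y)‖ₑ ^ 2 := by
    intro w
    have h := lint_scale hr.ne' (fun y => ENNReal.ofReal (sc χ (l * r) y) *
      ‖Φ ((r : ℂ) * w + y)‖ₑ ^ 2)
    have h' : ∀ y : ℂ, ENNReal.ofReal (sc χ (l * r) ((r : ℂ) * y)) *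
        ‖Φ ((r : ℂ) * w + (r : ℂ) * y)‖ₑ ^ 2 =
        ENNReal.ofReal ((r ^ 2)⁻¹) * (ENNReal.ofReal (sc χ l y) *
          ‖So n (fun x => ψ (((-r : ℝ) : ℂ) * x)) (fun z => φ ((r : ℂ) * z)) (w + y)‖ₑ ^ 2) := by
      intro y
      rw [sc_scale χ hr, ENNReal.ofReal_mul (by positivity), ← mul_add, hS, mul_assoc]
    simp only [h'] at h
    rw [lintegral_const_mul' _ _ ENNReal.ofReal_ne_top] at h
    have h5 : ENNReal.ofReal ((r ^ 2)⁻¹) ≠ 0 := by
      rw [Ne, ENNReal.ofReal_eq_zero, not_le]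
      positivity
    exact (ENNReal.mul_right_inj h5 ENNReal.ofReal_ne_top).1 h
  simp only [hin] at h1
  have h2 := lint_scale hr.ne' (fun z => (∫⁻ y, ENNReal.ofReal (sc χ (l * r) y) *
    ‖Φ (z + y)‖ₑ ^ 2) ^ (qr m / 2))
  have h3 := lint_scale hr.ne' (fun z => ‖φ z‖ₑ ^ (qr m))
  rw [h3] at h1
  rw [h2, mul_left_comm] at h1
  have h5 : ENNReal.ofReal ((r ^ 2)⁻¹) ≠ 0 := by
    rw [Ne, ENNReal.ofReal_eq_zero, not_le]
    positivity
  exact (ENNReal.mul_le_mul_iff_right h5 ENNReal.ofReal_ne_top).1 h1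

/-! ### duality -/

theorem dual_main2R {m : ℝ} (hm : 1 < m) {σ : ℂ → ℝ≥0∞} (hσ : Measurable σ) (hσ1 : ∫⁻ y, σ y = 1) {k : ℂ → ℂ} (hk : Measurable k) {K0 R0 : ℝ}
    (hK : ∀ x, ‖k x‖ ≤ K0) (hR : ∀ x, R0 < ‖x‖ → k x = 0) {A : ℝ} (hA : 0 ≤ A)
    (H : ∀ φ, Nice φ → ∫⁻ z, (∫⁻ y, σ y * ‖∫ w, k (w - (z + y)) * φ w‖ₑ ^ 2) ^ (qr m / 2) ≤
      ENNReal.ofReal (A ^ (qr m)) * ∫⁻ w, ‖φ w‖ₑ ^ (qr m))
    {f : ℂ → ℂ} (hf : Measurable f) (hfp : ∫⁻ z, ‖f z‖ₑ ^ (2 * m) < ∞) :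
    ∫⁻ w, ‖∫ z, k (w - z) * f z‖ₑ ^ (2 * m) ≤
      ENNReal.ofReal (A ^ (2 * m)) * ∫⁻ z, (∫⁻ y, σ y * ‖f (z + y)‖ₑ ^ 2) ^ m := by
  have hK0 : 0 ≤ K0 := (norm_nonneg _).trans (hK 0)
  have hpq := holderR m hm
  have hq0 : 0 < qr m := hpq.symm.pos
  have hp0 : (0 : ℝ) < 2 * m := hpq.pos
  -- the function `h`
  obtain ⟨h, hh⟩ : ∃ h : ℂ → ℂ, h = fun w => ∫ z, k (w - z) * f z := ⟨_, rfl⟩
  have hjoint : StronglyMeasurable (Function.uncurry fun w z : ℂ => k (w - z) * f z) :=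
    ((hk.comp (measurable_fst.sub measurable_snd)).mul (hf.comp measurable_snd)).stronglyMeasurable
  have hmeas : Measurable h := by
    rw [hh]
    exact hjoint.integral_prod_right.measurable
  show ∫⁻ w, ‖(fun w => ∫ z, k (w - z) * f z) w‖ₑ ^ (2 * m) ≤ _
  rw [← hh]
  -- the sets
  let E : ℕ → Set ℂ := fun M => {w | ‖w‖ ≤ M ∧ ‖h w‖ ≤ M}
  have hEm : ∀ M, MeasurableSet (E M) := fun M =>
    (measurableSet_le measurable_norm measurable_const).inter
      (measurableSet_le hmeas.norm measurable_const)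
  have hEmono : Monotone E := by
    intro M M' hM w hw
    have h1 : (M : ℝ) ≤ M' := by exact_mod_cast hM
    exact ⟨hw.1.trans h1, hw.2.trans h1⟩
  have hEu : ⋃ M, E M = Set.univ := by
    rw [Set.eq_univ_iff_forall]
    intro w
    obtain ⟨M, hM⟩ := exists_nat_ge (max ‖w‖ ‖h w‖)
    exact Set.mem_iUnion.2 ⟨M, (le_max_left _ _).trans hM, (le_max_right _ _).trans hM⟩
  -- the bound on every set
  have key : ∀ M : ℕ, ∫⁻ w in E M, ‖h w‖ₑ ^ (2 * m) ≤
      ENNReal.ofReal (A ^ (2 * m)) * ∫⁻ z, (∫⁻ y, σ y * ‖f (z + y)‖ₑ ^ 2) ^ m := by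
    intro M
    obtain ⟨φ, hφdef⟩ : ∃ φ : ℂ → ℂ, φ = (E M).indicator
        (fun w => (starRingEnd ℂ) (h w) * ((‖h w‖ ^ (2 * m - 2) : ℝ) : ℂ)) := ⟨_, rfl⟩
    have hφm : Measurable φ := by
      rw [hφdef]
      refine Measurable.indicator ?_ (hEm M)
      exact (Complex.continuous_conj.measurable.comp hmeas).mul
        (Complex.measurable_ofReal.comp (hmeas.norm.pow_const _))
    have hφn : ∀ w ∈ E M, ‖φ w‖ = ‖h w‖ ^ (2 * m - 1) := by
      intro w hw
      rw [hφdef, Set.indicator_of_mem hw, norm_mul, Complex.norm_real,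
        Real.norm_of_nonneg (Real.rpow_nonneg (norm_nonneg _) _), RCLike.norm_conj]
      exact pw1 (norm_nonneg _) hm
    have hφ0 : ∀ w, w ∉ E M → φ w = 0 := fun w hw => by rw [hφdef, Set.indicator_of_notMem hw]
    have hφb : ∀ w, ‖φ w‖ ≤ (M : ℝ) ^ (2 * m - 1) := by
      intro w
      by_cases hw : w ∈ E M
      · rw [hφn w hw]
        exact Real.rpow_le_rpow (norm_nonneg _) hw.2 (by linarith)
      · rw [hφ0 w hw, norm_zero]
        positivity
    have hφs : ∀ w, (M : ℝ) < ‖w‖ → φ w = 0 := fun w hw => hφ0 w fun h => absurd h.1 (not_le.2 hw)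
    have hnice : Nice φ := ⟨hφm, ⟨_, hφb⟩, ⟨M, hφs⟩⟩
    have hprod : ∀ w, h w * φ w = (((E M).indicator (fun w => ‖h w‖ ^ (2 * m)) w : ℝ) : ℂ) := by
      intro w
      by_cases hw : w ∈ E M
      · rw [hφdef, Set.indicator_of_mem hw, Set.indicator_of_mem hw, ← mul_assoc,
          Complex.mul_conj, Complex.normSq_eq_norm_sq]
        rw [← Complex.ofReal_mul]
        congr 1
        exact pw2 (norm_nonneg _) hm
      · rw [hφ0 w hw, Set.indicator_of_notMem hw]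
        simp
    -- the integral
    obtain ⟨J, hJ⟩ : ∃ J, J = ∫⁻ w in E M, ‖h w‖ₑ ^ (2 * m) := ⟨_, rfl⟩
    rw [← hJ]
    have hEvol : volume (E M) < ∞ := by
      refine lt_of_le_of_lt (measure_mono (t := Metric.closedBall 0 (M : ℝ)) fun w hw => ?_)
        measure_closedBall_lt_top
      rw [mem_closedBall_zero_iff]
      exact hw.1
    have hJlt : J < ∞ := by
      rw [hJ]
      calc ∫⁻ w in E M, ‖h w‖ₑ ^ (2 * m) ≤ ∫⁻ w in E M, (ENNReal.ofReal M) ^ (2 * m) := by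
            refine setLIntegral_mono measurable_const fun w hw => ?_
            refine ENNReal.rpow_le_rpow ?_ (by linarith)
            rw [← ofReal_norm]
            exact ENNReal.ofReal_le_ofReal hw.2
        _ = (ENNReal.ofReal M) ^ (2 * m) * volume (E M) := setLIntegral_const _ _
        _ < ∞ := ENNReal.mul_lt_top
            (ENNReal.rpow_lt_top_of_nonneg (by linarith) ENNReal.ofReal_ne_top) hEvol
    have hJe : J = ‖∫ w, h w * φ w‖ₑ := by
      have e1 : ∫ w, h w * φ w = ((∫ w, (E M).indicator (fun w => ‖h w‖ ^ (2 * m)) w : ℝ) : ℂ) := by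
        rw [← integral_complex_ofReal]
        exact integral_congr_ae (Filter.Eventually.of_forall hprod)
      have hnn : ∀ w, 0 ≤ (E M).indicator (fun w => ‖h w‖ ^ (2 * m)) w := fun w =>
        Set.indicator_nonneg (fun w _ => by positivity) w
      have e2 : ∫ w, (E M).indicator (fun w => ‖h w‖ ^ (2 * m)) w = J.toReal := by
        rw [integral_eq_lintegral_of_nonneg_ae (Filter.Eventually.of_forall hnn)
          ((hmeas.norm.pow_const _).indicator (hEm M)).aestronglyMeasurable, hJ,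
          ← lintegral_indicator (hEm M)]
        congr 1
        refine lintegral_congr fun w => ?_
        by_cases hw : w ∈ E M
        · rw [Set.indicator_of_mem hw, Set.indicator_of_mem hw,
            ← ENNReal.ofReal_rpow_of_nonneg (norm_nonneg _) (by linarith), ofReal_norm]
        · rw [Set.indicator_of_notMem hw, Set.indicator_of_notMem hw, ENNReal.ofReal_zero]
      rw [e1, e2, ← ofReal_norm, Complex.norm_real, Real.norm_eq_abs,
        abs_of_nonneg ENNReal.toReal_nonneg, ENNReal.ofReal_toReal hJlt.ne]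
    -- Fubini
    have hφint : Integrable φ := by
      have h1 : IntegrableOn φ (Metric.closedBall 0 (M : ℝ)) :=
        Measure.integrableOn_of_bounded measure_closedBall_lt_top.ne hφm.aestronglyMeasurable
          (Filter.Eventually.of_forall hφb)
      refine h1.integrable_of_forall_notMem_eq_zero fun w hw => hφs w ?_
      rw [mem_closedBall_zero_iff, not_le] at hw
      exact hw
    obtain ⟨g, hg⟩ : ∃ g : ℂ → ℂ, g = (Metric.closedBall 0 ((M : ℝ) + R0)).indicator f := ⟨_, rfl⟩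
    have hgint : Integrable g := by
      rw [hg, integrable_indicator_iff measurableSet_closedBall]
      refine ⟨hf.aestronglyMeasurable, ?_⟩
      show ∫⁻ z in Metric.closedBall 0 ((M : ℝ) + R0), ‖f z‖ₑ < ∞
      calc ∫⁻ z in Metric.closedBall 0 ((M : ℝ) + R0), ‖f z‖ₑ
          ≤ ∫⁻ z in Metric.closedBall 0 ((M : ℝ) + R0), (1 + ‖f z‖ₑ ^ (2 * m)) := by
            refine lintegral_mono fun z => ?_
            show ‖f z‖ₑ ≤ 1 + ‖f z‖ₑ ^ (2 * m)
            rcases le_total ‖f z‖ₑ 1 with h1 | h1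
            · exact h1.trans le_self_add
            · refine le_trans ?_ le_add_self
              calc ‖f z‖ₑ = ‖f z‖ₑ ^ (1 : ℝ) := (ENNReal.rpow_one _).symm
                _ ≤ ‖f z‖ₑ ^ (2 * m) := ENNReal.rpow_le_rpow_of_exponent_le h1 (by linarith)
        _ = volume (Metric.closedBall (0 : ℂ) ((M : ℝ) + R0)) +
            ∫⁻ z in Metric.closedBall 0 ((M : ℝ) + R0), ‖f z‖ₑ ^ (2 * m) := by
            rw [lintegral_add_left measurable_const]
            simp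
        _ < ∞ := ENNReal.add_lt_top.2 ⟨measure_closedBall_lt_top,
            lt_of_le_of_lt (setLIntegral_le_lintegral _ _) hfp⟩
    have hFint : Integrable (Function.uncurry fun w z : ℂ => k (w - z) * f z * φ w)
        (volume.prod volume) := by
      refine Integrable.mono' ((hφint.norm.const_mul K0).mul_prod hgint.norm) ?_ ?_
      · exact (((hk.comp (measurable_fst.sub measurable_snd)).mul
          (hf.comp measurable_snd)).mul (hφm.comp measurable_fst)).aestronglyMeasurable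
      · refine Filter.Eventually.of_forall ?_
        rintro ⟨w, z⟩
        show ‖k (w - z) * f z * φ w‖ ≤ K0 * ‖φ w‖ * ‖g z‖
        by_cases h1 : (M : ℝ) < ‖w‖
        · rw [hφs w h1, mul_zero, norm_zero]
          positivity
        by_cases h2 : R0 < ‖w - z‖
        · rw [hR _ h2, zero_mul, zero_mul, norm_zero]
          positivity
        have h3 : z ∈ Metric.closedBall (0 : ℂ) ((M : ℝ) + R0) := by
          rw [mem_closedBall_zero_iff]
          push Not at h1 h2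
          calc ‖z‖ = ‖w - (w - z)‖ := by congr 1; ring
            _ ≤ ‖w‖ + ‖w - z‖ := norm_sub_le _ _
            _ ≤ M + R0 := add_le_add h1 h2
        rw [hg, Set.indicator_of_mem h3, norm_mul, norm_mul]
        have := hK (w - z)
        calc ‖k (w - z)‖ * ‖f z‖ * ‖φ w‖ ≤ K0 * ‖f z‖ * ‖φ w‖ := by gcongr
          _ = K0 * ‖φ w‖ * ‖f z‖ := by ring
    obtain ⟨Φ, hΦ⟩ : ∃ Φ : ℂ → ℂ, Φ = fun z => ∫ w, k (w - z) * φ w := ⟨_, rfl⟩
    have hΦm : Measurable Φ := by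
      have h1 : StronglyMeasurable (Function.uncurry fun z w : ℂ => k (w - z) * φ w) :=
        ((hk.comp (measurable_snd.sub measurable_fst)).mul
          (hφm.comp measurable_snd)).stronglyMeasurable
      rw [hΦ]
      exact h1.integral_prod_right.measurable
    have hfub : ∫ w, h w * φ w = ∫ z, f z * Φ z := by
      calc ∫ w, h w * φ w = ∫ w, ∫ z, k (w - z) * f z * φ w := by
            refine integral_congr_ae (Filter.Eventually.of_forall fun w => ?_)
            show h w * φ w = ∫ z, k (w - z) * f z * φ w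
            rw [integral_mul_const, hh]
        _ = ∫ z, ∫ w, k (w - z) * f z * φ w := integral_integral_swap hFint
        _ = ∫ z, f z * Φ z := by
            refine integral_congr_ae (Filter.Eventually.of_forall fun z => ?_)
            show ∫ w, k (w - z) * f z * φ w = f z * Φ z
            rw [hΦ, ← integral_const_mul]
            refine integral_congr_ae (Filter.Eventually.of_forall fun w => ?_)
            show k (w - z) * f z * φ w = f z * (k (w - z) * φ w)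
            ring
    -- the inequality of Hoelder
    obtain ⟨N, hN⟩ : ∃ N, N = ∫⁻ z, (∫⁻ y, σ y * ‖f (z + y)‖ₑ ^ 2) ^ m := ⟨_, rfl⟩
    rw [← hN]
    have hφq : ∫⁻ w, ‖φ w‖ₑ ^ (qr m) = J := by
      rw [hJ, ← lintegral_indicator (hEm M)]
      refine lintegral_congr fun w => ?_
      by_cases hw : w ∈ E M
      · rw [Set.indicator_of_mem hw, ← ofReal_norm, hφn w hw,
          ← ENNReal.ofReal_rpow_of_nonneg (norm_nonneg _) (by linarith), ofReal_norm,
          ← ENNReal.rpow_mul]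
        congr 1
        unfold qr
        have h1 : (2 * m - 1) ≠ 0 := by linarith
        field_simp
      · rw [Set.indicator_of_notMem hw, hφ0 w hw, enorm_zero, ENNReal.zero_rpow_of_pos hq0]
    have hH := H φ hnice
    rw [hφq] at hH
    have hmain : J ≤ N ^ (1 / (2 * m)) * (ENNReal.ofReal A * J ^ (1 / qr m)) := by
      calc J = ‖∫ z, f z * Φ z‖ₑ := by rw [hJe, hfub]
        _ ≤ ∫⁻ z, ‖f z * Φ z‖ₑ := enorm_integral_le_lintegral_enorm _
        _ ≤ (∫⁻ z, (∫⁻ y, σ y * ‖f (z + y)‖ₑ ^ 2) ^ m) ^ (1 / (2 * m)) *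
            (∫⁻ z, (∫⁻ y, σ y * ‖Φ (z + y)‖ₑ ^ 2) ^ (qr m / 2)) ^ (1 / qr m) :=
            avg_holderR hm σ hσ hσ1 f Φ hf hΦm
        _ ≤ N ^ (1 / (2 * m)) * (ENNReal.ofReal (A ^ (qr m)) * J) ^ (1 / qr m) := by
            rw [← hN]
            refine mul_le_mul_right ?_ _
            refine ENNReal.rpow_le_rpow ?_ (by positivity)
            rw [hΦ]
            exact hH
        _ = _ := by
            rw [ENNReal.mul_rpow_of_nonneg _ _ (by positivity),
              ← ENNReal.ofReal_rpow_of_nonneg hA hq0.le, ← ENNReal.rpow_mul,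
              mul_one_div_cancel hq0.ne', ENNReal.rpow_one]
    by_cases hJ0 : J = 0
    · rw [hJ0]
      exact zero_le
    have hJq0 : J ^ (1 / qr m) ≠ 0 := by
      rw [Ne, ENNReal.rpow_eq_zero_iff]
      push Not
      exact ⟨fun h => absurd h hJ0, fun h => absurd h hJlt.ne⟩
    have hJqt : J ^ (1 / qr m) ≠ ∞ := ENNReal.rpow_ne_top_of_nonneg (by positivity) hJlt.ne
    have hsplit : J = J ^ (1 / (2 * m)) * J ^ (1 / qr m) := by
      rw [← ENNReal.rpow_add _ _ hJ0 hJlt.ne]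
      have h1 : 1 / (2 * m) + 1 / qr m = 1 := by
        have := hpq.inv_add_inv_eq_one
        rw [one_div, one_div]
        exact this
      rw [h1, ENNReal.rpow_one]
    have h2 : J ^ (1 / (2 * m)) * J ^ (1 / qr m) ≤
        (N ^ (1 / (2 * m)) * ENNReal.ofReal A) * J ^ (1 / qr m) := by
      rw [← hsplit, mul_assoc]
      exact hmain
    have h3 : J ^ (1 / (2 * m)) ≤ N ^ (1 / (2 * m)) * ENNReal.ofReal A :=
      (ENNReal.mul_le_mul_iff_left hJq0 hJqt).1 h2
    have h4 := ENNReal.rpow_le_rpow h3 hp0.le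
    rw [ENNReal.mul_rpow_of_nonneg _ _ hp0.le, ← ENNReal.rpow_mul, ← ENNReal.rpow_mul,
      one_div_mul_cancel hp0.ne', ENNReal.rpow_one, ENNReal.rpow_one] at h4
    have h5 : ENNReal.ofReal A ^ (2 * m) = ENNReal.ofReal (A ^ (2 * m)) := by
      rw [ENNReal.ofReal_rpow_of_nonneg hA (by linarith)]
    rw [h5] at h4
    rw [mul_comm]
    exact h4
  have h1 : ∫⁻ w, ‖h w‖ₑ ^ (2 * m) = ⨆ M, ∫⁻ w in E M, ‖h w‖ₑ ^ (2 * m) := by
    rw [← setLIntegral_univ, ← hEu]
    exact setLIntegral_iUnion_of_directed _ hEmono.directed_le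
  rw [h1]
  exact iSup_le key

/-- BW2/DUT -/
theorem t : R_DUT := by
  intro χ m n B r s A l hχ hm hn hr hA hl H ψ hψ f hf hfp
  have hσ : Measurable fun y => ENNReal.ofReal (sc χ (l * r) y) := by
    unfold sc
    exact ((hχ.1.continuous.measurable.comp (measurable_const.mul measurable_id)).const_mul
      _).ennreal_ofReal
  exact dual_main2R hm hσ (sc_int χ hχ.2.1 hχ.2.2.2 (mul_pos hl hr)) (measurable_kk n hψ.1.continuous)
    (kk_bd hn hr hψ) (fun x hx => kk_supp n hψ hx) hA (dual_hyp2R hn hr H hψ) hf hfp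

end Pool.Agent.H56.RP.DUT
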