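import Pool.Agent.H10.RP.Stm
import Pool.Agent.H10.RP.StmT
import Pool.Graph.R_pool_sql_team_seeded_63374d34.N892.BW.ALL

/-!
END: the final theorem, by interpolation between the nodes `2, 12/5, 3, 4, 24/5, 6, 8, ...`.
-/

set_option autoImplicit false

open MeasureTheory ENNReal Filter Topology Complex
open scoped ComplexConjugate ContDiff

namespace Pool.Agent.H56.RP.END

open Pool.Agent.N892.BW Pool.Agent.H10.RP

/-- asymptotic bound at one exponent -/
def Node (p A : ℝ) : Prop := ∀ ε : ℝ, 0 < ε → ∃ n₀ : ℕ, ∀ n : ℕ, n₀ ≤ n → ∀ f : SchwartzMap ℂ ℂ,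
  eLpNorm (TS n f) (ENNReal.ofReal p) volume ≤
    ENNReal.ofReal ((n : ℝ) ^ (1 - 2 / p) * ((1 + ε) * A)) *
      eLpNorm (fun z : ℂ => f z) (ENNReal.ofReal p) volume

/-- the final bound, uniform on an interval -/
def Good (a b : ℝ) : Prop := ∃ n₀ : ℕ, ∀ n : ℕ, n₀ ≤ n → ∀ p : ℝ, a ≤ p → p ≤ b →
  ∀ f : SchwartzMap ℂ ℂ, eLpNorm (TS n f) (ENNReal.ofReal p) volume ≤
      ENNReal.ofReal ((n : ℝ) ^ (1 - 2 / p) * (p - 1)) *
        eLpNorm (fun z : ℂ => f z) (ENNReal.ofReal p) volume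

theorem Good.trans {a b c : ℝ} (h1 : Good a b) (h2 : Good b c) : Good a c := by
  obtain ⟨n₁, h1⟩ := h1
  obtain ⟨n₂, h2⟩ := h2
  refine ⟨max n₁ n₂, fun n hn p hp hpc f => ?_⟩
  rcases le_total p b with h | h
  · exact h1 n ((le_max_left _ _).trans hn) p hp h f
  · exact h2 n ((le_max_right _ _).trans hn) p h hpc f

theorem node_real (h1 : R_FUL) {m A : ℝ} (hm : 6 / 5 ≤ m) (hA : 0 < A) (hP : Pit m A) :
    Node (2 * m) A := by
  intro ε hε
  obtain ⟨n₀, hn₀⟩ := h1 m A ε hm hA hP hε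
  refine ⟨n₀, fun n hn f => ?_⟩
  have h2 := hn₀ n hn f
  have e : (1 + ε) * AR A m n = (n : ℝ) ^ (1 - 2 / (2 * m)) * ((1 + ε) * A) := by
    unfold AR
    have : 2 / (2 * m) = 1 / m := by
      have : m ≠ 0 := by linarith
      field_simp
    rw [this]
    ring
  rw [e] at h2
  exact h2

theorem node_even {m : ℕ} (hm : 1 ≤ m) : Node (2 * m) (GA m) := by
  intro ε hε
  have he : 0 < min (ε / 3) 1 := lt_min (by linarith) one_pos
  obtain ⟨n₀, hn₀⟩ := REB.ev ALL.ful ALL.plz hm he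
  refine ⟨n₀, fun n hn f => ?_⟩
  refine (hn₀ n hn f).trans (mul_le_mul' (ENNReal.ofReal_le_ofReal ?_) le_rfl)
  have hmr : (1 : ℝ) ≤ m := by exact_mod_cast hm
  have e : 2 / (2 * (m : ℝ)) = 1 / m := by field_simp
  rw [e]
  unfold AA
  have h1 : min (ε / 3) 1 ≤ ε / 3 := min_le_left _ _
  have h2 : min (ε / 3) 1 ≤ 1 := min_le_right _ _
  have h3 : (1 + min (ε / 3) 1) ^ 2 ≤ 1 + ε := by nlinarith
  have h4 : 0 ≤ (n : ℝ) ^ (1 - 1 / (m : ℝ)) * GA m :=
    mul_nonneg (Real.rpow_nonneg (Nat.cast_nonneg _) _) (REB.GA_pos hm).le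
  calc (1 + min (ε / 3) 1) ^ 2 * ((n : ℝ) ^ (1 - 1 / (m : ℝ)) * GA m)
      ≤ (1 + ε) * ((n : ℝ) ^ (1 - 1 / (m : ℝ)) * GA m) := mul_le_mul_of_nonneg_right h3 h4
    _ = _ := by ring

/-- interpolation at a fixed `n` -/
theorem interp {n : ℕ} (hn : 1 ≤ n) {p₀ p₁ p θ K₀ K₁ : ℝ} (h0 : 2 ≤ p₀) (h01 : p₀ < p₁)
    (hθ0 : 0 ≤ θ) (hθ1 : θ ≤ 1) (hp : 1 / p = (1 - θ) / p₀ + θ / p₁) (hK0 : 0 < K₀) (hK1 : 0 < K₁)
    (H0 : ∀ f : SchwartzMap ℂ ℂ, eLpNorm (TS n f) (ENNReal.ofReal p₀) volume ≤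
      ENNReal.ofReal ((n : ℝ) ^ (1 - 2 / p₀) * K₀) *
        eLpNorm (fun z : ℂ => f z) (ENNReal.ofReal p₀) volume)
    (H1 : ∀ f : SchwartzMap ℂ ℂ, eLpNorm (TS n f) (ENNReal.ofReal p₁) volume ≤
      ENNReal.ofReal ((n : ℝ) ^ (1 - 2 / p₁) * K₁) *
        eLpNorm (fun z : ℂ => f z) (ENNReal.ofReal p₁) volume) (f : SchwartzMap ℂ ℂ) :
    eLpNorm (TS n f) (ENNReal.ofReal p) volume ≤
      ENNReal.ofReal ((n : ℝ) ^ (1 - 2 / p) * (K₀ ^ (1 - θ) * K₁ ^ θ)) *
        eLpNorm (fun z : ℂ => f z) (ENNReal.ofReal p) volume := by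
  have hnp : (0 : ℝ) < n := by exact_mod_cast hn
  have q0 : 0 < (n : ℝ) ^ (1 - 2 / p₀) := Real.rpow_pos_of_pos hnp _
  have q1 : 0 < (n : ℝ) ^ (1 - 2 / p₁) := Real.rpow_pos_of_pos hnp _
  have key := ALL.rtt n p₀ p₁ p θ _ _ h0 h01 hθ0 hθ1 hp (mul_pos q0 hK0) (mul_pos q1 hK1) H0 H1 f
  refine key.trans (mul_le_mul' (ENNReal.ofReal_le_ofReal (le_of_eq ?_)) le_rfl)
  rw [Real.mul_rpow q0.le hK0.le, Real.mul_rpow q1.le hK1.le, ← Real.rpow_mul hnp.le,
    ← Real.rpow_mul hnp.le]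
  have e : (n : ℝ) ^ ((1 - 2 / p₀) * (1 - θ)) * (n : ℝ) ^ ((1 - 2 / p₁) * θ) =
      (n : ℝ) ^ (1 - 2 / p) := by
    rw [← Real.rpow_add hnp]
    congr 1
    have h2 : 2 / p = 2 * (1 / p) := by ring
    rw [h2, hp]
    ring
  rw [← e]
  ring

/-- one interval -/
theorem intv {p₀ p₁ A₀ A₁ : ℝ} (h0 : 2 ≤ p₀) (h01 : p₀ < p₁) (hA0 : 0 < A₀) (hA1 : 0 < A₁)
    (hs : ∀ θ : ℝ, 0 ≤ θ → θ ≤ 1 → A₀ ^ (1 - θ) * A₁ ^ θ < 1 / ((1 - θ) / p₀ + θ / p₁) - 1)
    (N0 : Node p₀ A₀) (N1 : Node p₁ A₁) : Good p₀ p₁ := by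
  have hp0 : 0 < p₀ := by linarith
  have hp1 : 0 < p₁ := by linarith
  -- the margin
  obtain ⟨ε, hε, hm⟩ : ∃ ε : ℝ, 0 < ε ∧ ∀ θ : ℝ, 0 ≤ θ → θ ≤ 1 →
      (1 + ε) * (A₀ ^ (1 - θ) * A₁ ^ θ) ≤ 1 / ((1 - θ) / p₀ + θ / p₁) - 1 := by
    have hden : ∀ θ ∈ Set.Icc (0 : ℝ) 1, (1 - θ) / p₀ + θ / p₁ ≠ 0 := by
      rintro θ ⟨g0, g1⟩
      have h1 : 0 ≤ (1 - θ) / p₀ := div_nonneg (by linarith) hp0.le
      have h2 : 0 ≤ θ / p₁ := div_nonneg g0 hp1.le
      rcases g0.eq_or_lt with g | g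
      · rw [← g]
        simp [hp0.ne']
      · have : 0 < θ / p₁ := div_pos g hp1
        linarith
    have hA : ∀ θ : ℝ, 0 < A₀ ^ (1 - θ) * A₁ ^ θ := fun θ =>
      mul_pos (Real.rpow_pos_of_pos hA0 _) (Real.rpow_pos_of_pos hA1 _)
    have hc : ContinuousOn (fun θ : ℝ => (1 / ((1 - θ) / p₀ + θ / p₁) - 1) / (A₀ ^ (1 - θ) * A₁ ^ θ))
        (Set.Icc 0 1) := by
      refine ContinuousOn.div ?_ ?_ fun θ _ => (hA θ).ne'
      · refine ContinuousOn.sub ?_ continuousOn_const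
        refine ContinuousOn.div continuousOn_const ?_ hden
        fun_prop
      · apply Continuous.continuousOn
        exact (continuous_const.rpow (by fun_prop) fun _ => Or.inl hA0.ne').mul
          (continuous_const.rpow continuous_id fun _ => Or.inl hA1.ne')
    obtain ⟨t, ht, hmin⟩ := isCompact_Icc.exists_isMinOn (Set.nonempty_Icc.2 zero_le_one) hc
    have h1 : 1 < (1 / ((1 - t) / p₀ + t / p₁) - 1) / (A₀ ^ (1 - t) * A₁ ^ t) := by
      rw [one_lt_div (hA t)]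
      exact hs t ht.1 ht.2
    refine ⟨(1 / ((1 - t) / p₀ + t / p₁) - 1) / (A₀ ^ (1 - t) * A₁ ^ t) - 1, by linarith, ?_⟩
    intro θ g0 g1
    have h2 := hmin (show θ ∈ Set.Icc (0 : ℝ) 1 from ⟨g0, g1⟩)
    have h2' : (1 / ((1 - t) / p₀ + t / p₁) - 1) / (A₀ ^ (1 - t) * A₁ ^ t) ≤
        (1 / ((1 - θ) / p₀ + θ / p₁) - 1) / (A₀ ^ (1 - θ) * A₁ ^ θ) := h2
    rw [le_div_iff₀ (hA θ)] at h2'
    have e : (1 + ((1 / ((1 - t) / p₀ + t / p₁) - 1) / (A₀ ^ (1 - t) * A₁ ^ t) - 1)) =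
      (1 / ((1 - t) / p₀ + t / p₁) - 1) / (A₀ ^ (1 - t) * A₁ ^ t) := by ring
    rw [e]
    exact h2'
  obtain ⟨n₀, hn₀⟩ := N0 ε hε
  obtain ⟨n₁, hn₁⟩ := N1 ε hε
  refine ⟨max (max n₀ n₁) 1, fun n hn p hpa hpb f => ?_⟩
  have hn1 : 1 ≤ n := (le_max_right _ _).trans hn
  have ha := hn₀ n (((le_max_left _ _).trans (le_max_left _ _)).trans hn)
  have hb := hn₁ n (((le_max_right _ _).trans (le_max_left _ _)).trans hn)
  have hp : 0 < p := by linarith
  obtain ⟨θ, hθ⟩ : ∃ θ : ℝ, θ = (1 / p₀ - 1 / p) / (1 / p₀ - 1 / p₁) := ⟨_, rfl⟩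
  have hd : 0 < 1 / p₀ - 1 / p₁ := by
    have := one_div_lt_one_div_of_lt hp0 h01
    linarith
  have hle0 : 1 / p ≤ 1 / p₀ := one_div_le_one_div_of_le hp0 hpa
  have hle1 : 1 / p₁ ≤ 1 / p := one_div_le_one_div_of_le hp hpb
  have hθ0 : 0 ≤ θ := by rw [hθ]; apply div_nonneg <;> linarith
  have hθ1 : θ ≤ 1 := by rw [hθ, div_le_one hd]; linarith
  have hpe : 1 / p = (1 - θ) / p₀ + θ / p₁ := by
    have h6 : θ * (1 / p₀ - 1 / p₁) = 1 / p₀ - 1 / p := by
      rw [hθ, div_mul_cancel₀ _ hd.ne']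
    have h7 : (1 - θ) / p₀ + θ / p₁ = 1 / p₀ - θ * (1 / p₀ - 1 / p₁) := by ring
    rw [h7, h6]
    ring
  have key := interp hn1 h0 h01 hθ0 hθ1 hpe (mul_pos (by linarith : 0 < 1 + ε) hA0)
    (mul_pos (by linarith : 0 < 1 + ε) hA1) ha hb f
  refine key.trans (mul_le_mul' (ENNReal.ofReal_le_ofReal ?_) le_rfl)
  refine mul_le_mul_of_nonneg_left ?_ (Real.rpow_nonneg (Nat.cast_nonneg _) _)
  have h8 : ((1 + ε) * A₀) ^ (1 - θ) * ((1 + ε) * A₁) ^ θ = (1 + ε) * (A₀ ^ (1 - θ) * A₁ ^ θ) := by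
    have he : 0 < 1 + ε := by linarith
    rw [Real.mul_rpow he.le hA0.le, Real.mul_rpow he.le hA1.le]
    have h9 : (1 + ε) ^ (1 - θ) * (1 + ε) ^ θ = 1 + ε := by
      rw [← Real.rpow_add he, sub_add_cancel, Real.rpow_one]
    calc (1 + ε) ^ (1 - θ) * A₀ ^ (1 - θ) * ((1 + ε) ^ θ * A₁ ^ θ)
        = ((1 + ε) ^ (1 - θ) * (1 + ε) ^ θ) * (A₀ ^ (1 - θ) * A₁ ^ θ) := by ring
      _ = _ := by rw [h9]
  rw [h8]
  refine (hm θ hθ0 hθ1).trans (le_of_eq ?_)
  rw [← hpe, one_div_one_div]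

/-! ### the tangent lines -/

/-- lower bound for the logarithm of `(1+w)/(1-w)` -/
theorem log_lo {w : ℝ} (h0 : 0 ≤ w) (h1 : w < 1) : 2 * w ≤ Real.log ((1 + w) / (1 - w)) := by
  have h := Real.sum_range_le_log_div (x := w) h0 h1 1
  simp at h
  linarith

theorem log_lo2 {w : ℝ} (h0 : 0 ≤ w) (h1 : w < 1) :
    2 * (w + w ^ 3 / 3) ≤ Real.log ((1 + w) / (1 - w)) := by
  have h := Real.sum_range_le_log_div (x := w) h0 h1 2
  simp only [Finset.sum_range_succ, Finset.sum_range_zero] at h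
  norm_num at h
  linarith

theorem log_hi {w : ℝ} (h0 : 0 ≤ w) (h1 : w < 1) :
    Real.log ((1 + w) / (1 - w)) ≤ 2 * (w / (1 - w ^ 2)) := by
  have h := Real.log_div_le_sum_range_add (x := w) h0 h1 0
  simp at h
  linarith

theorem log_hi2 {w : ℝ} (h0 : 0 ≤ w) (h1 : w < 1) :
    Real.log ((1 + w) / (1 - w)) ≤ 2 * (w + w ^ 3 / 3 + w ^ 5 / (1 - w ^ 2)) := by
  have h := Real.log_div_le_sum_range_add (x := w) h0 h1 2
  simp only [Finset.sum_range_succ, Finset.sum_range_zero] at h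
  norm_num at h
  linarith

theorem ratio {u v : ℝ} (hd : 0 < 1 - u * v) (hu0 : 0 ≤ u) (hu1 : u < 1) (_hv0 : 0 ≤ v)
    (hv1 : v < 1) :
    (1 + v) / (1 - v) = (1 + u) / (1 - u) *
      ((1 + (v - u) / (1 - u * v)) / (1 - (v - u) / (1 - u * v))) := by
  have e2 : 1 + (v - u) / (1 - u * v) = ((1 + v) * (1 - u)) / (1 - u * v) := by
    rw [eq_div_iff hd.ne', add_mul, div_mul_cancel₀ _ hd.ne']
    ring
  have e3 : 1 - (v - u) / (1 - u * v) = ((1 - v) * (1 + u)) / (1 - u * v) := by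
    rw [eq_div_iff hd.ne', sub_mul, div_mul_cancel₀ _ hd.ne']
    ring
  rw [e2, e3, div_div_div_cancel_right₀ hd.ne']
  have h1 : (1 : ℝ) - u ≠ 0 := by linarith
  have h2 : (1 : ℝ) - v ≠ 0 := by linarith
  have h3 : (1 : ℝ) + u ≠ 0 := by linarith
  rw [div_mul_div_comm, div_eq_div_iff h2 (mul_ne_zero h1 (mul_ne_zero h2 h3))]
  ring

theorem tangent {u v : ℝ} (hu0 : 0 ≤ u) (hu1 : u < 1) (hv0 : 0 ≤ v) (hv1 : v < 1) :
    Real.log ((1 + v) / (1 - v)) + 2 * (u - v) / (1 - v ^ 2) ≤ Real.log ((1 + u) / (1 - u)) := by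
  have huv : u * v < 1 := by nlinarith
  have hd : 0 < 1 - u * v := by linarith
  have hv2 : 0 < 1 - v ^ 2 := by nlinarith
  have hu2 : 0 < 1 - u ^ 2 := by nlinarith
  rcases le_total v u with h | h
  · have hd' : 0 < 1 - v * u := by linarith
    have hr := ratio hd' hv0 hv1 hu0 hu1
    obtain ⟨w, hw⟩ : ∃ w, w = (u - v) / (1 - v * u) := ⟨_, rfl⟩
    rw [← hw] at hr
    have hw0 : 0 ≤ w := by rw [hw]; exact div_nonneg (by linarith) hd'.le
    have hw1 : w < 1 := by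
      rw [hw, div_lt_one hd']
      nlinarith
    have hp1 : 0 < (1 + v) / (1 - v) := div_pos (by linarith) (by linarith)
    have hp2 : 0 < (1 + w) / (1 - w) := div_pos (by linarith) (by linarith)
    rw [hr, Real.log_mul hp1.ne' hp2.ne']
    have h4 := log_lo hw0 hw1
    have h5 : (u - v) / (1 - v ^ 2) ≤ w := by
      rw [hw]
      apply div_le_div_of_nonneg_left (by linarith) hd'
      nlinarith
    have h6 : 2 * (u - v) / (1 - v ^ 2) = 2 * ((u - v) / (1 - v ^ 2)) := by ring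
    rw [h6]
    linarith
  · have hr := ratio hd hu0 hu1 hv0 hv1
    obtain ⟨w, hw⟩ : ∃ w, w = (v - u) / (1 - u * v) := ⟨_, rfl⟩
    rw [← hw] at hr
    have hw0 : 0 ≤ w := by rw [hw]; exact div_nonneg (by linarith) hd.le
    have hw1 : w < 1 := by
      rw [hw, div_lt_one hd]
      nlinarith
    have hp1 : 0 < (1 + u) / (1 - u) := div_pos (by linarith) (by linarith)
    have hp2 : 0 < (1 + w) / (1 - w) := div_pos (by linarith) (by linarith)
    rw [hr, Real.log_mul hp1.ne' hp2.ne']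
    have h4 := log_hi hw0 hw1
    have h5 : w / (1 - w ^ 2) ≤ (v - u) / (1 - v ^ 2) := by
      have hwd : w * (1 - u * v) = v - u := by rw [hw, div_mul_cancel₀ _ hd.ne']
      have hw2 : 0 < 1 - w ^ 2 := by nlinarith
      have e4 : (1 - w ^ 2) * (1 - u * v) ^ 2 = (1 - u ^ 2) * (1 - v ^ 2) := by
        linear_combination (-(w * (1 - u * v)) - (v - u)) * hwd
      rw [div_le_div_iff₀ hw2 hv2]
      have h7 : (1 - u * v) ≤ 1 - u ^ 2 := by nlinarith
      have hD2 : 0 < (1 - u * v) ^ 2 := by positivity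
      -- multiply by `(1 - u v)^2`
      have h8 : w * (1 - v ^ 2) * (1 - u * v) ^ 2 ≤ (v - u) * (1 - w ^ 2) * (1 - u * v) ^ 2 := by
        have e5 : w * (1 - v ^ 2) * (1 - u * v) ^ 2 = (v - u) * (1 - v ^ 2) * (1 - u * v) := by
          linear_combination (1 - v ^ 2) * (1 - u * v) * hwd
        have e6 : (v - u) * (1 - w ^ 2) * (1 - u * v) ^ 2 =
            (v - u) * (1 - v ^ 2) * (1 - u ^ 2) := by
          linear_combination (v - u) * e4
        rw [e5, e6]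
        exact mul_le_mul_of_nonneg_left h7 (mul_nonneg (by linarith) hv2.le)
      exact le_of_mul_le_mul_right h8 hD2
    have h6 : 2 * (u - v) / (1 - v ^ 2) = -(2 * ((v - u) / (1 - v ^ 2))) := by ring
    rw [h6]
    linarith

/-- the strict inequality on an interval from the inequalities at the end points -/
theorem chord {p₀ p₁ q A₀ A₁ : ℝ} (h0 : 2 ≤ p₀) (h1 : 2 ≤ p₁) (hq : 2 ≤ q) (hA0 : 0 < A₀)
    (hA1 : 0 < A₁)
    (H0 : Real.log A₀ < Real.log (q - 1) + q ^ 2 / (q - 1) * (1 / q - 1 / p₀))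
    (H1 : Real.log A₁ < Real.log (q - 1) + q ^ 2 / (q - 1) * (1 / q - 1 / p₁)) (θ : ℝ) (hθ0 : 0 ≤ θ)
    (hθ1 : θ ≤ 1) : A₀ ^ (1 - θ) * A₁ ^ θ < 1 / ((1 - θ) / p₀ + θ / p₁) - 1 := by
  obtain ⟨s, hs⟩ : ∃ s, s = (1 - θ) / p₀ + θ / p₁ := ⟨_, rfl⟩
  have hp0 : 0 < p₀ := by linarith
  have hp1 : 0 < p₁ := by linarith
  have i0 : 1 / p₀ ≤ 1 / 2 := one_div_le_one_div_of_le (by norm_num) h0
  have i1 : 1 / p₁ ≤ 1 / 2 := one_div_le_one_div_of_le (by norm_num) h1
  have iq : 1 / q ≤ 1 / 2 := one_div_le_one_div_of_le (by norm_num) hq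
  have j0 : 0 < 1 / p₀ := by positivity
  have j1 : 0 < 1 / p₁ := by positivity
  have jq : 0 < 1 / q := by positivity
  have hs' : s = (1 - θ) * (1 / p₀) + θ * (1 / p₁) := by rw [hs]; ring
  have hs0 : 0 < s := by
    rw [hs']
    rcases hθ0.eq_or_lt with g | g
    · rw [← g]; simpa using hp0
    · have : 0 < θ * (1 / p₁) := mul_pos g j1
      have : 0 ≤ (1 - θ) * (1 / p₀) := mul_nonneg (by linarith) j0.le
      linarith
  have hs1 : s ≤ 1 / 2 := by
    rw [hs']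
    nlinarith
  rw [← hs]
  have ht := tangent (u := 1 - 2 * s) (v := 1 - 2 * (1 / q)) (by linarith) (by linarith)
    (by linarith) (by linarith)
  have e1 : (1 + (1 - 2 * s)) / (1 - (1 - 2 * s)) = 1 / s - 1 := by
    field_simp
    ring
  have hq1 : q - 1 ≠ 0 := by linarith
  have hq0 : q ≠ 0 := by linarith
  have e2 : (1 + (1 - 2 * (1 / q))) / (1 - (1 - 2 * (1 / q))) = q - 1 := by
    field_simp
    ring
  have e3 : 2 * ((1 - 2 * s) - (1 - 2 * (1 / q))) / (1 - (1 - 2 * (1 / q)) ^ 2) =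
      q ^ 2 / (q - 1) * (1 / q - s) := by
    have e4 : 1 - (1 - 2 * (1 / q)) ^ 2 = 4 * (q - 1) / q ^ 2 := by
      field_simp
      ring
    rw [e4]
    field_simp
    ring
  rw [e1, e2, e3] at ht
  have hpos : 0 < 1 / s - 1 := by
    have : 2 ≤ 1 / s := by
      rw [le_div_iff₀ hs0]
      linarith
    linarith
  have hA : 0 < A₀ ^ (1 - θ) * A₁ ^ θ :=
    mul_pos (Real.rpow_pos_of_pos hA0 _) (Real.rpow_pos_of_pos hA1 _)
  rw [← Real.log_lt_log_iff hA hpos, Real.log_mul (Real.rpow_pos_of_pos hA0 _).ne'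
    (Real.rpow_pos_of_pos hA1 _).ne', Real.log_rpow hA0, Real.log_rpow hA1]
  refine lt_of_lt_of_le ?_ ht
  have e5 : Real.log (q - 1) + q ^ 2 / (q - 1) * (1 / q - s) =
      (1 - θ) * (Real.log (q - 1) + q ^ 2 / (q - 1) * (1 / q - 1 / p₀)) +
        θ * (Real.log (q - 1) + q ^ 2 / (q - 1) * (1 / q - 1 / p₁)) := by
    rw [hs']
    ring
  rw [e5]
  rcases hθ0.eq_or_lt with g | g
  · rw [← g]
    simpa using H0
  · have g1 : (1 - θ) * Real.log A₀ ≤
        (1 - θ) * (Real.log (q - 1) + q ^ 2 / (q - 1) * (1 / q - 1 / p₀)) :=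
      mul_le_mul_of_nonneg_left H0.le (by linarith)
    have g2 : θ * Real.log A₁ < θ * (Real.log (q - 1) + q ^ 2 / (q - 1) * (1 / q - 1 / p₁)) :=
      mul_lt_mul_of_pos_left H1 g
    linarith

/-! ### numerical values -/

theorem ld_lo {x y : ℝ} (hy : 0 < y) (hxy : y ≤ x) :
    2 * ((x - y) / (x + y) + ((x - y) / (x + y)) ^ 3 / 3) ≤ Real.log x - Real.log y := by
  have hs : 0 < x + y := by linarith
  have h1 : 0 ≤ (x - y) / (x + y) := div_nonneg (by linarith) hs.le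
  have h2 : (x - y) / (x + y) < 1 := by
    rw [div_lt_one hs]
    linarith
  have h := log_lo2 h1 h2
  have e1 : 1 + (x - y) / (x + y) = 2 * x / (x + y) := by
    field_simp
    ring
  have e2 : 1 - (x - y) / (x + y) = 2 * y / (x + y) := by
    field_simp
    ring
  rw [e1, e2, div_div_div_cancel_right₀ hs.ne', mul_div_mul_left _ _ (two_ne_zero),
    Real.log_div (by linarith) hy.ne'] at h
  exact h

theorem ld_hi {x y : ℝ} (hy : 0 < y) (hxy : y ≤ x) :
    Real.log x - Real.log y ≤ 2 * ((x - y) / (x + y) + ((x - y) / (x + y)) ^ 3 / 3 +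
      ((x - y) / (x + y)) ^ 5 / (1 - ((x - y) / (x + y)) ^ 2)) := by
  have hs : 0 < x + y := by linarith
  have h1 : 0 ≤ (x - y) / (x + y) := div_nonneg (by linarith) hs.le
  have h2 : (x - y) / (x + y) < 1 := by
    rw [div_lt_one hs]
    linarith
  have h := log_hi2 h1 h2
  have e1 : 1 + (x - y) / (x + y) = 2 * x / (x + y) := by
    field_simp
    ring
  have e2 : 1 - (x - y) / (x + y) = 2 * y / (x + y) := by
    field_simp
    ring
  rw [e1, e2, div_div_div_cancel_right₀ hs.ne', mul_div_mul_left _ _ (two_ne_zero),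
    Real.log_div (by linarith) hy.ne'] at h
  exact h

theorem ga2 : Real.log (GA 2) ≤ Real.log 3 - 13664 / 1000000 := by
  have h := NUI.gs_le_exp (x := 1 / 4) (by norm_num) (by norm_num)
  have e : Gs (1 / 4) = GA 2 := by
    rw [NUI.ga_eq]
    norm_num
  rw [e] at h
  have hp := REB.GA_pos (m := 2) (by norm_num)
  have h2 := Real.log_le_log hp h
  rw [Real.log_mul (by norm_num) (Real.exp_pos _).ne', Real.log_exp] at h2
  have e3 : (1 - 1 / 4 : ℝ) / (1 / 4) = 3 := by norm_num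
  rw [e3] at h2
  refine h2.trans ?_
  unfold NUI.P
  norm_num
  linarith

theorem ga3 : Real.log (GA 3) ≤ Real.log 5 - 13626 / 1000000 := by
  have h := NUI.gs_le_exp (x := 1 / 6) (by norm_num) (by norm_num)
  have e : Gs (1 / 6) = GA 3 := by
    rw [NUI.ga_eq]
    norm_num
  rw [e] at h
  have hp := REB.GA_pos (m := 3) (by norm_num)
  have h2 := Real.log_le_log hp h
  rw [Real.log_mul (by norm_num) (Real.exp_pos _).ne', Real.log_exp] at h2
  have e3 : (1 - 1 / 6 : ℝ) / (1 / 6) = 5 := by norm_num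
  rw [e3] at h2
  refine h2.trans ?_
  unfold NUI.P
  norm_num
  linarith

/-- the intervals `[2m, 2m+2]`, `m ≥ 3` -/
theorem nui {m : ℕ} (hm : 3 ≤ m) (θ : ℝ) (hθ0 : 0 ≤ θ) (hθ1 : θ ≤ 1) :
    GA m ^ (1 - θ) * GA (m + 1) ^ θ < 1 / ((1 - θ) / (2 * m) + θ / (2 * ((m + 1 : ℕ) : ℝ))) - 1 := by
  have hmr : (3 : ℝ) ≤ m := by exact_mod_cast hm
  obtain ⟨s, hs⟩ : ∃ s : ℝ, s = (1 - θ) / (2 * m) + θ / (2 * ((m + 1 : ℕ) : ℝ)) := ⟨_, rfl⟩
  rw [← hs]
  have key : ∀ (k : ℕ) (t : ℝ), 1 ≤ k → 0 ≤ t → t ≤ 1 →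
      1 / (2 * ((k : ℝ) + 1)) ≤ (1 - t) / (2 * k) + t / (2 * ((k : ℝ) + 1)) ∧
      (1 - t) / (2 * k) + t / (2 * ((k : ℝ) + 1)) ≤ 1 / (2 * k) ∧
      (1 - t) / (2 * k) + t / (2 * ((k : ℝ) + 1)) - 1 / (2 * ((k : ℝ) + 1)) =
        (1 - t) * (1 / (2 * k) - 1 / (2 * ((k : ℝ) + 1))) ∧
      0 < 1 / (2 * k) - 1 / (2 * ((k : ℝ) + 1)) := by
    intro k t hk h0 h1
    have hkr : (1 : ℝ) ≤ k := by exact_mod_cast hk
    have hd : 0 < 1 / (2 * k) - 1 / (2 * ((k : ℝ) + 1)) := by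
      have : 1 / (2 * ((k : ℝ) + 1)) < 1 / (2 * k) :=
        one_div_lt_one_div_of_lt (by linarith) (by linarith)
      linarith
    have e : (1 - t) / (2 * k) + t / (2 * ((k : ℝ) + 1)) - 1 / (2 * ((k : ℝ) + 1)) =
        (1 - t) * (1 / (2 * k) - 1 / (2 * ((k : ℝ) + 1))) := by ring
    refine ⟨?_, ?_, e, hd⟩
    · have : 0 ≤ (1 - t) * (1 / (2 * k) - 1 / (2 * ((k : ℝ) + 1))) :=
        mul_nonneg (by linarith) hd.le
      linarith
    · have : 0 ≤ t * (1 / (2 * k) - 1 / (2 * ((k : ℝ) + 1))) := mul_nonneg h0 hd.le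
      nlinarith
  push_cast at hs
  obtain ⟨k1, k2, k3, k4⟩ := key m θ (by omega) hθ0 hθ1
  rw [← hs] at k1 k2 k3
  have hs0 : 0 < s := lt_of_lt_of_le (by positivity) k1
  have hs6 : s ≤ 1 / 6 := k2.trans (one_div_le_one_div_of_le (by norm_num) (by linarith))
  have hp6 : 6 ≤ 1 / s := by
    rw [le_div_iff₀ hs0]
    linarith
  obtain ⟨m', θ', hm', h0', h1', he, hG⟩ := ALL.nui (1 / s) (Or.inr (by linarith))
  rw [one_div_one_div] at he
  obtain ⟨l1, l2, l3, l4⟩ := key m' θ' hm' h0' h1'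
  rw [← he] at l1 l2 l3
  have hval : GA m ^ (1 - θ) * GA (m + 1) ^ θ = GA m' ^ (1 - θ') * GA (m' + 1) ^ θ' := by
    rcases lt_trichotomy m' m with h | h | h
    · have h5 : m' + 1 ≤ m := h
      have h5r : (m' : ℝ) + 1 ≤ m := by exact_mod_cast h5
      have h6 : 1 / (2 * (m : ℝ)) ≤ 1 / (2 * ((m' : ℝ) + 1)) :=
        one_div_le_one_div_of_le (by positivity) (by linarith)
      have h7 : s = 1 / (2 * (m : ℝ)) := le_antisymm k2 (h6.trans l1)
      have h8 : s = 1 / (2 * ((m' : ℝ) + 1)) := le_antisymm (k2.trans h6) l1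
      have h9 : θ = 0 := by
        have : θ * (1 / (2 * (m : ℝ)) - 1 / (2 * ((m : ℝ) + 1))) = 0 := by
          rw [h7] at k3
          linarith
        rcases mul_eq_zero.1 this with g | g
        · exact g
        · exact absurd g k4.ne'
      have h10 : θ' = 1 := by
        have : (1 - θ') * (1 / (2 * (m' : ℝ)) - 1 / (2 * ((m' : ℝ) + 1))) = 0 := by
          rw [← l3, ← h8, sub_self]
        rcases mul_eq_zero.1 this with g | g
        · linarith
        · exact absurd g l4.ne'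
      have h11 : m' + 1 = m := by
        have : (1 : ℝ) / (2 * (m : ℝ)) = 1 / (2 * ((m' : ℝ) + 1)) := by rw [← h7, ← h8]
        have h12 : (2 * (m : ℝ)) = 2 * ((m' : ℝ) + 1) := by
          have h13 := congrArg (fun x : ℝ => 1 / x) this
          simpa using h13
        have h14 : (m : ℝ) = ((m' + 1 : ℕ) : ℝ) := by
          push_cast
          linarith
        exact_mod_cast h14.symm
      rw [h9, h10, h11]
      simp
    · subst h
      have h5 : θ = θ' := by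
        have h6 : (1 - θ) * (1 / (2 * (m' : ℝ)) - 1 / (2 * ((m' : ℝ) + 1))) =
          (1 - θ') * (1 / (2 * (m' : ℝ)) - 1 / (2 * ((m' : ℝ) + 1))) := by rw [← k3, ← l3]
        have := mul_right_cancel₀ k4.ne' h6
        linarith
      rw [h5]
    · have h5 : m + 1 ≤ m' := h
      have h5r : (m : ℝ) + 1 ≤ m' := by exact_mod_cast h5
      have h6 : 1 / (2 * (m' : ℝ)) ≤ 1 / (2 * ((m : ℝ) + 1)) :=
        one_div_le_one_div_of_le (by positivity) (by linarith)
      have h7 : s = 1 / (2 * ((m : ℝ) + 1)) := le_antisymm (l2.trans h6) k1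
      have h8 : s = 1 / (2 * (m' : ℝ)) := le_antisymm l2 (h6.trans k1)
      have h9 : θ = 1 := by
        have : (1 - θ) * (1 / (2 * (m : ℝ)) - 1 / (2 * ((m : ℝ) + 1))) = 0 := by
          rw [← k3, ← h7, sub_self]
        rcases mul_eq_zero.1 this with g | g
        · linarith
        · exact absurd g k4.ne'
      have h10 : θ' = 0 := by
        have : θ' * (1 / (2 * (m' : ℝ)) - 1 / (2 * ((m' : ℝ) + 1))) = 0 := by
          rw [h8] at l3
          linarith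
        rcases mul_eq_zero.1 this with g | g
        · exact g
        · exact absurd g l4.ne'
      have h11 : m + 1 = m' := by
        have : (1 : ℝ) / (2 * (m' : ℝ)) = 1 / (2 * ((m : ℝ) + 1)) := by rw [← h7, ← h8]
        have h12 : (2 * (m' : ℝ)) = 2 * ((m : ℝ) + 1) := by
          have h13 := congrArg (fun x : ℝ => 1 / x) this
          simpa using h13
        have h14 : (m' : ℝ) = ((m + 1 : ℕ) : ℝ) := by
          push_cast
          linarith
        exact_mod_cast h14.symm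
      rw [h9, h10, h11]
      simp
  rw [hval]
  exact hG

theorem good_even {m : ℕ} (hm : 3 ≤ m) : Good (2 * m) (2 * ((m + 1 : ℕ) : ℝ)) := by
  have hmr : (3 : ℝ) ≤ m := by exact_mod_cast hm
  exact intv (by linarith) (by push_cast; linarith) (REB.GA_pos (by omega)) (REB.GA_pos (by omega))
    (nui hm) (node_even (by omega)) (node_even (by omega))

/-- the first interval -/
theorem good_first (N : Node (12 / 5) 1.3955) : Good 2 (12 / 5) := by
  obtain ⟨n₀, hn₀⟩ := N (1 / 20000) (by norm_num)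
  refine ⟨max n₀ 1, fun n hn p hpa hpb f => ?_⟩
  have hn1 : 1 ≤ n := (le_max_right _ _).trans hn
  have hp : 0 < p := by linarith
  obtain ⟨θ, hθ⟩ : ∃ θ : ℝ, θ = 6 - 12 / p := ⟨_, rfl⟩
  have hθ0 : 0 ≤ θ := by
    have : 12 / p ≤ 6 := by
      rw [div_le_iff₀ hp]
      linarith
    linarith
  have hθ1 : θ ≤ 1 := by
    have : 5 ≤ 12 / p := by
      rw [le_div_iff₀ hp]
      linarith
    linarith
  have hpe : 1 / p = (1 - θ) / 2 + θ / (12 / 5) := by
    rw [hθ]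
    field_simp
    ring
  have key := interp hn1 (le_refl 2) (by norm_num : (2 : ℝ) < 12 / 5) hθ0 hθ1 hpe
    (K₀ := 1) (K₁ := (1 + 1 / 20000) * 1.3955) one_pos (by norm_num) (by
      intro g
      have h2 := ALL.plz n g
      have e : (n : ℝ) ^ (1 - 2 / 2 : ℝ) * 1 = 1 := by norm_num
      rw [e, ENNReal.ofReal_one, one_mul]
      exact h2) (hn₀ n ((le_max_left _ _).trans hn)) f
  refine key.trans (mul_le_mul' (ENNReal.ofReal_le_ofReal ?_) le_rfl)
  refine mul_le_mul_of_nonneg_left ?_ (Real.rpow_nonneg (Nat.cast_nonneg _) _)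
  rw [Real.one_rpow, one_mul]
  have hK : (1 + 1 / 20000) * 1.3955 ≤ Real.exp (1 / 3) := by
    have h := Real.sum_le_exp_of_nonneg (x := 1 / 3) (by norm_num) 5
    simp only [Finset.sum_range_succ, Finset.sum_range_zero, Nat.factorial] at h
    norm_num at h
    norm_num
    linarith
  have hK0 : (0 : ℝ) < (1 + 1 / 20000) * 1.3955 := by norm_num
  have hlog : Real.log ((1 + 1 / 20000) * 1.3955) ≤ 1 / 3 := by
    have := Real.log_le_log hK0 hK
    rwa [Real.log_exp] at this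
  have hp1 : 0 < p - 1 := by linarith
  rw [← Real.log_le_log_iff (Real.rpow_pos_of_pos hK0 _) hp1, Real.log_rpow hK0]
  have h3 := log_lo (w := θ / 6) (by linarith) (by linarith)
  have e : (1 + θ / 6) / (1 - θ / 6) = p - 1 := by
    rw [hθ]
    field_simp
    ring
  rw [e] at h3
  have h4 : θ * Real.log ((1 + 1 / 20000) * 1.3955) ≤ θ * (1 / 3) :=
    mul_le_mul_of_nonneg_left hlog hθ0
  linarith

theorem good_2 (N0 : Node (12 / 5) 1.3955) (N1 : Node 3 1.986) : Good (12 / 5) 3 := by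
  refine intv (by norm_num) (by norm_num) (by norm_num) (by norm_num)
    (chord (q := 13 / 5) (by norm_num) (by norm_num) (by norm_num) (by norm_num) (by norm_num) ?_ ?_)
    N0 N1
  · have h := ld_lo (x := 1.6) (y := 1.3955) (by norm_num) (by norm_num)
    have e : (13 / 5 - 1 : ℝ) = 1.6 := by norm_num
    rw [e]
    norm_num at h ⊢
    linarith
  · have h := ld_hi (x := 1.986) (y := 1.6) (by norm_num) (by norm_num)
    have e : (13 / 5 - 1 : ℝ) = 1.6 := by norm_num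
    rw [e]
    norm_num at h ⊢
    linarith

theorem good_3 (N0 : Node 3 1.986) (N1 : Node 4 (GA 2)) : Good 3 4 := by
  refine intv (by norm_num) (by norm_num) (by norm_num) (REB.GA_pos (by norm_num))
    (chord (q := 17 / 5) (by norm_num) (by norm_num) (by norm_num) (by norm_num)
      (REB.GA_pos (by norm_num)) ?_ ?_) N0 N1
  · have h := ld_lo (x := 2.4) (y := 1.986) (by norm_num) (by norm_num)
    have e : (17 / 5 - 1 : ℝ) = 2.4 := by norm_num
    rw [e]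
    norm_num at h ⊢
    linarith
  · have h := ld_hi (x := 3) (y := 2.4) (by norm_num) (by norm_num)
    have h2 := ga2
    have e : (17 / 5 - 1 : ℝ) = 2.4 := by norm_num
    rw [e]
    norm_num at h ⊢
    linarith

theorem good_4 (N0 : Node 4 (GA 2)) (N1 : Node (24 / 5) 3.79) : Good 4 (24 / 5) := by
  refine intv (by norm_num) (by norm_num) (REB.GA_pos (by norm_num)) (by norm_num)
    (chord (q := 14 / 3) (by norm_num) (by norm_num) (by norm_num) (REB.GA_pos (by norm_num))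
      (by norm_num) ?_ ?_) N0 N1
  · have h := ld_lo (x := 11 / 3) (y := 3) (by norm_num) (by norm_num)
    have h2 := ga2
    have e : (14 / 3 - 1 : ℝ) = 11 / 3 := by norm_num
    rw [e]
    norm_num at h ⊢
    linarith
  · have h := ld_hi (x := 3.79) (y := 11 / 3) (by norm_num) (by norm_num)
    have e : (14 / 3 - 1 : ℝ) = 11 / 3 := by norm_num
    rw [e]
    norm_num at h ⊢
    linarith

theorem good_5 (N0 : Node (24 / 5) 3.79) (N1 : Node 6 (GA 3)) : Good (24 / 5) 6 := by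
  refine intv (by norm_num) (by norm_num) (by norm_num) (REB.GA_pos (by norm_num))
    (chord (q := 66 / 13) (by norm_num) (by norm_num) (by norm_num) (by norm_num)
      (REB.GA_pos (by norm_num)) ?_ ?_) N0 N1
  · have h := ld_lo (x := 53 / 13) (y := 3.79) (by norm_num) (by norm_num)
    have e : (66 / 13 - 1 : ℝ) = 53 / 13 := by norm_num
    rw [e]
    norm_num at h ⊢
    linarith
  · have h := ld_hi (x := 5) (y := 53 / 13) (by norm_num) (by norm_num)
    have h2 := ga3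
    have e : (66 / 13 - 1 : ℝ) = 53 / 13 := by norm_num
    rw [e]
    norm_num at h ⊢
    linarith

/-- **END.** -/
theorem t (h1 : R_FUL) (h2 : R_PIT) : R_END := by
  obtain ⟨P1, P2, P3⟩ := h2
  have N1 : Node (12 / 5) 1.3955 := by
    have := node_real h1 (by norm_num) (by norm_num) P1
    norm_num at this ⊢
    exact this
  have N2 : Node 3 1.986 := by
    have := node_real h1 (by norm_num) (by norm_num) P2
    norm_num at this ⊢
    exact this
  have N3 : Node 4 (GA 2) := by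
    have := node_even (m := 2) (by norm_num)
    norm_num at this ⊢
    exact this
  have N4 : Node (24 / 5) 3.79 := by
    have := node_real h1 (by norm_num) (by norm_num) P3
    norm_num at this ⊢
    exact this
  have N5 : Node 6 (GA 3) := by
    have := node_even (m := 3) (by norm_num)
    norm_num at this ⊢
    exact this
  have G6 : Good 2 6 := ((((good_first N1).trans (good_2 N1 N2)).trans (good_3 N2 N3)).trans
    (good_4 N3 N4)).trans (good_5 N4 N5)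
  have G : ∀ m : ℕ, 3 ≤ m → Good 2 (2 * m) := by
    intro m hm
    induction m, hm using Nat.le_induction with
    | base =>
      norm_num
      exact G6
    | succ m hm ih => exact ih.trans (good_even hm)
  intro P
  obtain ⟨m, hm⟩ := exists_nat_ge (P / 2)
  have hP : P ≤ 2 * ((m + 3 : ℕ) : ℝ) := by
    push_cast
    linarith
  obtain ⟨n₀, hn₀⟩ := G (m + 3) (by omega)
  exact ⟨n₀, fun n hn p hp hpP f => hn₀ n hn p hp (hpP.trans hP) f⟩

end Pool.Agent.H56.RP.END
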