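import Pool.Agent.H56.RP.SGE

/-!
LPS and CLS: averages over the signs, real exponents.
-/

set_option autoImplicit false

open MeasureTheory ENNReal Filter Topology Complex
open scoped ComplexConjugate ContDiff

namespace Pool.Agent.H56.RP.LPSCLS

open Pool.Agent.N892.BW Pool.Agent.H10.RP

/-- the signs of a set -/
noncomputable def sg (S : Finset ℕ) (i : ℕ) : ℝ := if i ∈ S then 1 else -1

theorem sg_abs (S : Finset ℕ) (i : ℕ) : |sg S i| ≤ 1 := by
  unfold sg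
  split_ifs <;> simp

theorem para (c a : ℂ) : ‖c - a‖ ^ 2 + ‖c + a‖ ^ 2 = 2 * (‖c‖ ^ 2 + ‖a‖ ^ 2) := by
  have := parallelogram_law_with_norm ℝ c a
  nlinarith

theorem par (a : ℕ → ℂ) (L : ℕ) (c : ℂ) :
    ∑ S ∈ (Finset.range L).powerset, ‖c + ∑ i ∈ Finset.range L, (sg S i : ℂ) * a i‖ ^ 2 =
      2 ^ L * (‖c‖ ^ 2 + ∑ i ∈ Finset.range L, ‖a i‖ ^ 2) := by
  induction L generalizing c with
  | zero => simp
  | succ L ih =>
    rw [Finset.range_add_one, Finset.sum_powerset_insert (by simp)]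
    have e1 : ∀ S ∈ (Finset.range L).powerset,
        ‖c + ∑ i ∈ insert L (Finset.range L), (sg S i : ℂ) * a i‖ ^ 2 =
        ‖(c - a L) + ∑ i ∈ Finset.range L, (sg S i : ℂ) * a i‖ ^ 2 := by
      intro S hS
      have hL : L ∉ S := fun h => by
        have := Finset.mem_powerset.1 hS h
        simp at this
      rw [Finset.sum_insert (by simp)]
      have : sg S L = -1 := by
        unfold sg
        rw [if_neg hL]
      rw [this]
      congr 2
      push_cast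
      ring
    have e2 : ∀ S ∈ (Finset.range L).powerset,
        ‖c + ∑ i ∈ insert L (Finset.range L), (sg (insert L S) i : ℂ) * a i‖ ^ 2 =
        ‖(c + a L) + ∑ i ∈ Finset.range L, (sg S i : ℂ) * a i‖ ^ 2 := by
      intro S hS
      rw [Finset.sum_insert (by simp)]
      have h1 : sg (insert L S) L = 1 := by
        unfold sg
        rw [if_pos (Finset.mem_insert_self _ _)]
      have h2 : ∑ i ∈ Finset.range L, (sg (insert L S) i : ℂ) * a i =
          ∑ i ∈ Finset.range L, (sg S i : ℂ) * a i := by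
        refine Finset.sum_congr rfl fun i hi => ?_
        have hne : i ≠ L := (Finset.mem_range.1 hi).ne
        have : sg (insert L S) i = sg S i := by
          unfold sg
          simp [Finset.mem_insert, hne]
        rw [this]
      rw [h1, h2]
      congr 2
      push_cast
      ring
    rw [Finset.sum_congr rfl e1, Finset.sum_congr rfl e2, ih, ih, ← mul_add,
      Finset.sum_insert (by simp)]
    have := para c (a L)
    rw [pow_succ]
    linear_combination (2 ^ L : ℝ) * this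

theorem parE (a : ℕ → ℂ) (L : ℕ) :
    ∑ i ∈ Finset.range L, ‖a i‖ₑ ^ 2 =
      ∑ S ∈ (Finset.range L).powerset, ((2 : ℝ≥0∞) ^ L)⁻¹ *
        ‖∑ i ∈ Finset.range L, (sg S i : ℂ) * a i‖ₑ ^ 2 := by
  have h := par a L 0
  simp only [zero_add, norm_zero] at h
  have e : ∀ z : ℂ, ‖z‖ₑ ^ 2 = ENNReal.ofReal (‖z‖ ^ 2) := by
    intro z
    rw [← ofReal_norm, ENNReal.ofReal_pow (norm_nonneg _)]
  simp only [e]
  rw [← Finset.mul_sum, ← ENNReal.ofReal_sum_of_nonneg (fun _ _ => by positivity),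
    ← ENNReal.ofReal_sum_of_nonneg (fun _ _ => by positivity), h]
  have e2 : (2 : ℝ≥0∞) ^ L = ENNReal.ofReal (2 ^ L) := by
    rw [ENNReal.ofReal_pow (by norm_num)]
    simp
  rw [ENNReal.ofReal_mul (by positivity), ← e2, ← mul_assoc,
    ENNReal.inv_mul_cancel (by simp) (by simp), one_mul]
  simp

theorem sqm (x : ℝ≥0∞) (m : ℝ) : (x ^ 2) ^ m = x ^ (2 * m) := by
  rw [← ENNReal.rpow_natCast, ← ENNReal.rpow_mul]
  norm_num

/-- the lower inequality of Khintchine for exponents `≥ 2` -/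
theorem kh (a : ℕ → ℂ) (L : ℕ) {m : ℝ} (hm : 1 ≤ m) :
    (∑ i ∈ Finset.range L, ‖a i‖ₑ ^ 2) ^ m ≤
      ∑ S ∈ (Finset.range L).powerset, ((2 : ℝ≥0∞) ^ L)⁻¹ *
        ‖∑ i ∈ Finset.range L, (sg S i : ℂ) * a i‖ₑ ^ (2 * m) := by
  rw [parE]
  have hw : ∑ _S ∈ (Finset.range L).powerset, ((2 : ℝ≥0∞) ^ L)⁻¹ = 1 := by
    rw [Finset.sum_const, Finset.card_powerset, Finset.card_range, nsmul_eq_mul]
    push_cast
    exact ENNReal.mul_inv_cancel (by simp) (by simp)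
  refine (ENNReal.rpow_arith_mean_le_arith_mean_rpow _ (fun _ => ((2 : ℝ≥0∞) ^ L)⁻¹)
    (fun S => ‖∑ i ∈ Finset.range L, (sg S i : ℂ) * a i‖ₑ ^ 2) hw hm).trans (le_of_eq ?_)
  refine Finset.sum_congr rfl fun S _ => ?_
  rw [sqm]

theorem Fi_ss {β : ℕ → ℝ} {b : ℝ} {h : ℂ → ℂ} (hh : Bd 0 b h) (L : ℕ) (s : ℕ → ℝ) (x : ℂ) :
    Fi (fun ξ => ss L s β ξ * h ξ) x =
      ∑ i ∈ Finset.range L, (s i : ℂ) * Fi (fun ξ => bp β i ξ * h ξ) x := by
  have hb : ∀ i, Bd 0 b (fun ξ => (s i : ℂ) * (bp β i ξ * h ξ)) := fun i =>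
    ⟨contDiff_const.mul ((SGE.bp_smooth β i).mul hh.1), fun ξ hξ =>
      hh.2 ξ (right_ne_zero_of_mul (right_ne_zero_of_mul hξ))⟩
  have e : (fun ξ => ss L s β ξ * h ξ) =
      fun ξ => ∑ i ∈ Finset.range L, (s i : ℂ) * (bp β i ξ * h ξ) := by
    funext ξ
    unfold ss
    rw [Finset.sum_mul]
    refine Finset.sum_congr rfl fun i _ => ?_
    ring
  rw [e, SPL.Fi_sum L _ hb x]
  exact Finset.sum_congr rfl fun i _ => SGE.Fi_const _ _ x

theorem meas_ss {β : ℕ → ℝ} {b : ℝ} {h : ℂ → ℂ} (hh : Bd 0 b h) (L : ℕ) (s : ℕ → ℝ) (m : ℝ) :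
    Measurable fun x => ‖Fi (fun ξ => ss L s β ξ * h ξ) x‖ₑ ^ (2 * m) := by
  have hb : Bd 0 b (fun ξ => ss L s β ξ * h ξ) := by
    refine ⟨?_, fun ξ hξ => hh.2 ξ (right_ne_zero_of_mul hξ)⟩
    refine ContDiff.mul ?_ hh.1
    unfold ss
    exact ContDiff.sum fun i _ => contDiff_const.mul (SGE.bp_smooth β i)
  exact ((ALL.bas b _ hb).1.measurable.enorm).pow_const _

theorem lps (h1 : R_SGR) : R_LPS := by
  intro m hm
  obtain ⟨C, hC, H⟩ := h1 m hm
  refine ⟨C, hC, ?_⟩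
  intro L β b h h0 h2 hh
  have hw : ∑ _S ∈ (Finset.range L).powerset, ((2 : ℝ≥0∞) ^ L)⁻¹ = 1 := by
    rw [Finset.sum_const, Finset.card_powerset, Finset.card_range, nsmul_eq_mul]
    push_cast
    exact ENNReal.mul_inv_cancel (by simp) (by simp)
  calc ∫⁻ x, (∑ i ∈ Finset.range L, ‖Fi (fun ξ => bp β i ξ * h ξ) x‖ₑ ^ 2) ^ m
      ≤ ∫⁻ x, ∑ S ∈ (Finset.range L).powerset, ((2 : ℝ≥0∞) ^ L)⁻¹ *
          ‖Fi (fun ξ => ss L (sg S) β ξ * h ξ) x‖ₑ ^ (2 * m) := by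
        refine lintegral_mono fun x => ?_
        refine (kh _ L hm).trans (le_of_eq ?_)
        refine Finset.sum_congr rfl fun S _ => ?_
        rw [Fi_ss hh]
    _ = ∑ S ∈ (Finset.range L).powerset, ((2 : ℝ≥0∞) ^ L)⁻¹ *
          Nr m (Fi (fun ξ => ss L (sg S) β ξ * h ξ)) := by
        rw [lintegral_finsetSum _ fun S _ => (meas_ss hh L (sg S) m).const_mul _]
        refine Finset.sum_congr rfl fun S _ => ?_
        rw [lintegral_const_mul _ (meas_ss hh L (sg S) m)]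
        rfl
    _ ≤ ∑ S ∈ (Finset.range L).powerset, ((2 : ℝ≥0∞) ^ L)⁻¹ *
          (ENNReal.ofReal C * Nr m (Fi h)) := by
        refine Finset.sum_le_sum fun S _ => ?_
        exact mul_le_mul_right (H L (sg S) β b h (sg_abs S) h0 h2 hh) _
    _ = _ := by rw [← Finset.sum_mul, hw, one_mul]

theorem pow_sum_leR (J : ℕ) {m : ℝ} (hm : 1 ≤ m) (x : ℕ → ℝ≥0∞) :
    ∑ o ∈ Finset.range J, x o ^ m ≤ (∑ o ∈ Finset.range J, x o) ^ m := by
  induction J with
  | zero => simp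
  | succ J ih =>
    rw [Finset.sum_range_succ, Finset.sum_range_succ]
    refine le_trans ?_ (ENNReal.add_rpow_le_rpow_add _ _ hm)
    exact add_le_add ih le_rfl

theorem cls (h1 : R_SGR) : R_CLS := by
  intro m hm
  obtain ⟨C, hC, H⟩ := h1 m hm
  refine ⟨C, hC, ?_⟩
  intro J Mp β b h hJ h0 h2 hh
  have hw : ∑ _S ∈ (Finset.range J).powerset, ((2 : ℝ≥0∞) ^ J)⁻¹ = 1 := by
    rw [Finset.sum_const, Finset.card_powerset, Finset.card_range, nsmul_eq_mul]
    push_cast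
    exact ENNReal.mul_inv_cancel (by simp) (by simp)
  -- the signs
  set sS : Finset ℕ → ℕ → ℝ := fun S i => sg S (i % J) with hsS
  have hid : ∀ o, o < J → ∀ x, Fi (fun ξ => ∑ k ∈ Finset.range Mp, bp β (k * J + o) ξ * h ξ) x =
      ∑ k ∈ Finset.range Mp, Fi (fun ξ => bp β (k * J + o) ξ * h ξ) x := fun o _ x =>
    SPL.Fi_sum Mp (fun k ξ => bp β (k * J + o) ξ * h ξ) (fun k =>
      (⟨(SGE.bp_smooth β _).mul hh.1, fun ξ hξ => hh.2 ξ (right_ne_zero_of_mul hξ)⟩ : Bd 0 b _)) x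
  have hss : ∀ S x, Fi (fun ξ => ss (Mp * J) (sS S) β ξ * h ξ) x =
      ∑ o ∈ Finset.range J, (sg S o : ℂ) *
        Fi (fun ξ => ∑ k ∈ Finset.range Mp, bp β (k * J + o) ξ * h ξ) x := by
    intro S x
    rw [Fi_ss hh, SGE.blocks]
    refine Finset.sum_congr rfl fun o ho => ?_
    have ho' := Finset.mem_range.1 ho
    rw [hid o ho', Finset.mul_sum]
    refine Finset.sum_congr rfl fun k _ => ?_
    have : sS S (k * J + o) = sg S o := by
      rw [hsS]
      show sg S ((k * J + o) % J) = sg S o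
      rw [Nat.mul_comm, Nat.mul_add_mod, Nat.mod_eq_of_lt ho']
    rw [this]
  have hmX : ∀ o, Measurable fun x =>
      ‖Fi (fun ξ => ∑ k ∈ Finset.range Mp, bp β (k * J + o) ξ * h ξ) x‖ₑ ^ (2 * m) := by
    intro o
    have hb : Bd 0 b (fun ξ => ∑ k ∈ Finset.range Mp, bp β (k * J + o) ξ * h ξ) := by
      refine ⟨ContDiff.sum fun k _ => (SGE.bp_smooth β _).mul hh.1, fun ξ hξ => ?_⟩
      obtain ⟨k, -, hk⟩ := Finset.exists_ne_zero_of_sum_ne_zero hξ
      exact hh.2 ξ (right_ne_zero_of_mul hk)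
    exact ((ALL.bas b _ hb).1.measurable.enorm).pow_const _
  calc (∑ o ∈ Finset.range J, Nr m (Fi (fun ξ => ∑ k ∈ Finset.range Mp, bp β (k * J + o) ξ * h ξ)))
      = ∫⁻ x, ∑ o ∈ Finset.range J,
          ‖Fi (fun ξ => ∑ k ∈ Finset.range Mp, bp β (k * J + o) ξ * h ξ) x‖ₑ ^ (2 * m) := by
        rw [lintegral_finsetSum _ fun o _ => hmX o]
        rfl
    _ ≤ ∫⁻ x, ∑ S ∈ (Finset.range J).powerset, ((2 : ℝ≥0∞) ^ J)⁻¹ *
          ‖Fi (fun ξ => ss (Mp * J) (sS S) β ξ * h ξ) x‖ₑ ^ (2 * m) := by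
        refine lintegral_mono fun x => ?_
        have e : ∀ o, ‖Fi (fun ξ => ∑ k ∈ Finset.range Mp, bp β (k * J + o) ξ * h ξ) x‖ₑ ^ (2 * m) =
            (‖Fi (fun ξ => ∑ k ∈ Finset.range Mp, bp β (k * J + o) ξ * h ξ) x‖ₑ ^ 2) ^ m := by
          intro o
          rw [sqm]
        simp only [e]
        refine (pow_sum_leR J hm _).trans ?_
        refine (kh _ J hm).trans (le_of_eq ?_)
        refine Finset.sum_congr rfl fun S _ => ?_
        rw [hss]
    _ = ∑ S ∈ (Finset.range J).powerset, ((2 : ℝ≥0∞) ^ J)⁻¹ *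
          Nr m (Fi (fun ξ => ss (Mp * J) (sS S) β ξ * h ξ)) := by
        rw [lintegral_finsetSum _ fun S _ => (meas_ss hh (Mp * J) (sS S) m).const_mul _]
        refine Finset.sum_congr rfl fun S _ => ?_
        rw [lintegral_const_mul _ (meas_ss hh (Mp * J) (sS S) m)]
        rfl
    _ ≤ ∑ S ∈ (Finset.range J).powerset, ((2 : ℝ≥0∞) ^ J)⁻¹ *
          (ENNReal.ofReal C * Nr m (Fi h)) := by
        refine Finset.sum_le_sum fun S _ => ?_
        exact mul_le_mul_right (H (Mp * J) (sS S) β b h (fun i => sg_abs S _) h0 h2 hh) _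
    _ = _ := by rw [← Finset.sum_mul, hw, one_mul]

end Pool.Agent.H56.RP.LPSCLS
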