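import Pool.Agent.H56.RP.SGE

/-!
SGR: multipliers with signs on the band-pass pieces, real exponents.
-/

set_option autoImplicit false

open MeasureTheory ENNReal Filter Topology Complex
open scoped ComplexConjugate ContDiff

namespace Pool.Agent.H56.RP.SGR

open Pool.Agent.N892.BW Pool.Agent.H10.RP

theorem t (h1 : R_SGE) (h2 : R_RTM) : R_SGR := by
  intro m hm
  obtain ⟨k, hk⟩ : ∃ k : ℕ, k = ⌊m⌋₊ := ⟨_, rfl⟩
  have hm0 : 0 ≤ m := by linarith
  have hk1 : 1 ≤ k := by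
    rw [hk]
    exact Nat.le_floor (by exact_mod_cast hm)
  have hkm : (k : ℝ) ≤ m := by
    rw [hk]
    exact Nat.floor_le hm0
  have hmk : m ≤ k + 1 := by
    rw [hk]
    exact (Nat.lt_floor_add_one m).le
  obtain ⟨C1, hC1, H1⟩ := h1 k hk1
  obtain ⟨C2, hC2, H2⟩ := h1 (k + 1) (by omega)
  obtain ⟨C', hC', H⟩ := h2 k m (max C1 C2) hk1 hkm hmk (le_max_of_le_left hC1)
  refine ⟨C', hC', ?_⟩
  intro L s β b h hs h0 hβ hh
  obtain ⟨hp, hmo⟩ := SGE.mono h0 hβ
  have hB : Bd 0 (2 * β (L + 1)) (ss L s β) := by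
    refine ⟨?_, ?_⟩
    · unfold ss
      exact ContDiff.sum fun i _ => contDiff_const.mul (SGE.bp_smooth β i)
    · intro ξ hξ
      obtain ⟨i, hi, hne⟩ := Finset.exists_ne_zero_of_sum_ne_zero hξ
      have h3 := (SGE.bp_supp h0 hβ i ξ (right_ne_zero_of_mul hne)).2
      have h4 : β (i + 1) ≤ β (L + 1) := hmo (by have := Finset.mem_range.1 hi; omega)
      exact ⟨norm_nonneg _, by linarith⟩
  refine H (2 * β (L + 1)) (ss L s β) hB ?_ ?_ b h hh
  · intro b' h' hh'
    refine (H1 L s β b' h' hs h0 hβ hh').trans ?_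
    gcongr
    exact le_max_left _ _
  · intro b' h' hh'
    refine (H2 L s β b' h' hs h0 hβ hh').trans ?_
    gcongr
    exact le_max_right _ _

end Pool.Agent.H56.RP.SGR
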