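import Pool.Agent.H10.RP.Stm
import Pool.Agent.H56.RP.LPSCLS
import Pool.Graph.R_pool_sql_team_seeded_63374d34.N892.BW.ALL

/-!
SUQ, first file, real exponents: convexity with a quadratic error (port of N892/BW/SUQ_A.lean).
-/

set_option autoImplicit false

open MeasureTheory ENNReal Filter Topology Complex
open scoped ComplexConjugate ContDiff FourierTransform

namespace Pool.Agent.H56.RP.SUQ

open Pool.Agent.N892.BW Pool.Agent.N892.BW.SUQ Pool.Agent.H10.RP
open Pool.Agent.H56.RP.LPSCLS (sqm)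

/-! ### numerical inequalities -/

theorem bernR {m : ℝ} (hm : 1 < m) {v q : ℝ} (hv : 0 ≤ v) (hq : 0 ≤ q) :
    v ^ m + m * (v ^ (m - 1) * q) ≤ q ^ m + m * v ^ m := by
  rcases hv.eq_or_lt with h0 | h0
  · rw [← h0, Real.zero_rpow (by linarith), Real.zero_rpow (by linarith)]
    have : 0 ≤ q ^ m := Real.rpow_nonneg hq m
    simpa using this
  · have hqv : 0 ≤ q / v := by positivity
    have h1 := one_add_mul_self_le_rpow_one_add (s := q / v - 1) (by linarith) hm.le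
    have h2 : 1 + (q / v - 1) = q / v := by ring
    rw [h2, Real.div_rpow hq hv] at h1
    have hvm : 0 < v ^ m := Real.rpow_pos_of_pos h0 m
    have h3 := mul_le_mul_of_nonneg_left h1 hvm.le
    rw [mul_div_cancel₀ _ hvm.ne'] at h3
    have h5 : v ^ m * (q / v) = v ^ (m - 1) * q := by
      rw [Real.rpow_sub_one h0.ne']
      ring
    have h4 : v ^ m * (1 + m * (q / v - 1)) = v ^ m + m * (v ^ (m - 1) * q) - m * v ^ m := by
      linear_combination m * h5
    rw [h4] at h3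
    linarith

theorem fin {z : ℝ≥0∞} (hz : z ≠ ⊤) : ∃ r : ℝ, 0 ≤ r ∧ z = ENNReal.ofReal r :=
  ⟨_, ENNReal.toReal_nonneg, (ENNReal.ofReal_toReal hz).symm⟩

theorem bernER {m : ℝ} (hm : 1 < m) {V Q : ℝ≥0∞} (hV : V ≠ ⊤) :
    V ^ m + ENNReal.ofReal m * (V ^ (m - 1) * Q) ≤ Q ^ m + ENNReal.ofReal m * V ^ m := by
  have hm0 : 0 < m := by linarith
  by_cases hQ : Q = ⊤
  · rw [hQ, ENNReal.top_rpow_of_pos hm0, top_add]
    exact le_top
  · obtain ⟨v, hv, rfl⟩ := fin hV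
    obtain ⟨q, hq, rfl⟩ := fin hQ
    have h := bernR hm hv hq
    rw [ENNReal.ofReal_rpow_of_nonneg hv hm0.le, ENNReal.ofReal_rpow_of_nonneg hv (by linarith),
      ENNReal.ofReal_rpow_of_nonneg hq hm0.le, ← ENNReal.ofReal_mul (by positivity),
      ← ENNReal.ofReal_mul hm0.le, ← ENNReal.ofReal_mul hm0.le,
      ← ENNReal.ofReal_add (by positivity) (by positivity),
      ← ENNReal.ofReal_add (by positivity) (by positivity)]
    exact ENNReal.ofReal_le_ofReal h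

/-- the difference of the powers with exponent `s` -/
theorem diffpow {s : ℝ} (hs : 0 < s) {a b : ℝ} (hb : 0 ≤ b) (hab : b < a) :
    a ^ s - b ^ s ≤ (s + 1) * ((a - b) * a ^ (s - 1)) := by
  have ha : 0 < a := by linarith
  have h3 : a ^ s = a * a ^ (s - 1) := by
    rw [Real.rpow_sub_one ha.ne']
    field_simp
  have hp : 0 < a ^ (s - 1) := Real.rpow_pos_of_pos ha _
  rcases le_or_gt 1 s with h1 | h1
  · have hba : 0 ≤ b / a := by positivity
    have h2 := one_add_mul_self_le_rpow_one_add (s := b / a - 1) (by linarith) h1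
    have h4 : 1 + (b / a - 1) = b / a := by ring
    rw [h4, Real.div_rpow hb ha.le] at h2
    have has : 0 < a ^ s := Real.rpow_pos_of_pos ha s
    rw [le_div_iff₀ has] at h2
    have h5 : (1 + s * (b / a - 1)) * a ^ s = a ^ s - s * ((a - b) * a ^ (s - 1)) := by
      rw [h3]
      field_simp
      ring
    rw [h5] at h2
    have : 0 ≤ (a - b) * a ^ (s - 1) := mul_nonneg (by linarith) hp.le
    nlinarith
  · rcases hb.eq_or_lt with hb0 | hb0
    · rw [← hb0, Real.zero_rpow hs.ne', h3]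
      have : 0 ≤ a * a ^ (s - 1) := by positivity
      nlinarith
    · have h4 : b ^ s = b * b ^ (s - 1) := by
        rw [Real.rpow_sub_one hb0.ne']
        field_simp
      have h5 : a ^ (s - 1) ≤ b ^ (s - 1) :=
        Real.rpow_le_rpow_of_nonpos hb0 hab.le (by linarith)
      have h6 : b * a ^ (s - 1) ≤ b ^ s := by
        rw [h4]
        exact mul_le_mul_of_nonneg_left h5 hb0.le
      have h7 : 0 ≤ (a - b) * a ^ (s - 1) := mul_nonneg (by linarith) hp.le
      rw [h3]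
      nlinarith

theorem quadR0 {s : ℝ} (hs : 0 < s) {a b d : ℝ} (hb : 0 ≤ b) (hab : b ≤ a) (hd : a - b ≤ d) :
    (a ^ s - b ^ s) * (a ^ 2 - b ^ 2) ≤ (2 * (s + 1)) * (d ^ 2 * (a + b) ^ s) := by
  rcases hab.eq_or_lt with h | h
  · rw [h, sub_self, zero_mul]
    have : 0 ≤ (a + a) ^ s := Real.rpow_nonneg (by linarith) s
    positivity
  · have ha : 0 < a := by linarith
    have h1 := diffpow hs hb h
    have h2 : 0 ≤ a ^ 2 - b ^ 2 := by nlinarith
    have h3 : a ^ 2 - b ^ 2 ≤ (a - b) * (2 * a) := by nlinarith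
    have hp : 0 < a ^ (s - 1) := Real.rpow_pos_of_pos ha _
    have h4 : a ^ s = a * a ^ (s - 1) := by
      rw [Real.rpow_sub_one ha.ne']
      field_simp
    have h5 : a ^ s ≤ (a + b) ^ s := Real.rpow_le_rpow ha.le (by linarith) hs.le
    have h6 : (a - b) ^ 2 ≤ d ^ 2 := by nlinarith
    calc (a ^ s - b ^ s) * (a ^ 2 - b ^ 2)
        ≤ ((s + 1) * ((a - b) * a ^ (s - 1))) * ((a - b) * (2 * a)) := by
          have h7 : 0 ≤ (s + 1) * ((a - b) * a ^ (s - 1)) := by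
            have : 0 < a - b := by linarith
            positivity
          exact mul_le_mul h1 h3 h2 h7
      _ = (2 * (s + 1)) * ((a - b) ^ 2 * a ^ s) := by
          rw [h4]
          ring
      _ ≤ (2 * (s + 1)) * (d ^ 2 * (a + b) ^ s) := by
          have h8 : 0 ≤ a ^ s := Real.rpow_nonneg ha.le s
          have h9 : (a - b) ^ 2 * a ^ s ≤ d ^ 2 * (a + b) ^ s :=
            mul_le_mul h6 h5 h8 (sq_nonneg d)
          exact mul_le_mul_of_nonneg_left h9 (by linarith)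

theorem sq_rpow {a : ℝ} (ha : 0 ≤ a) (t : ℝ) : (a ^ 2) ^ t = a ^ (2 * t) := by
  rw [← Real.rpow_natCast, ← Real.rpow_mul ha]
  norm_num

theorem quadR {m : ℝ} (hm : 1 < m) {a a' d : ℝ} (ha : 0 ≤ a) (ha' : 0 ≤ a') (hd : |a - a'| ≤ d) :
    (a ^ 2) ^ m + (a' ^ 2) ^ m ≤ (a ^ 2) ^ (m - 1) * a' ^ 2 + (a' ^ 2) ^ (m - 1) * a ^ 2 +
      4 * m * (d ^ 2 * (a + a') ^ (2 * m - 2)) := by
  have e : ∀ x : ℝ, 0 ≤ x → (x ^ 2) ^ m = (x ^ 2) ^ (m - 1) * x ^ 2 := by
    intro x hx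
    have h1 : m = (m - 1) + 1 := by ring
    conv_lhs => rw [h1]
    rw [Real.rpow_add_of_nonneg (by positivity) (by linarith) (by norm_num), Real.rpow_one]
  have e2 : ∀ x : ℝ, 0 ≤ x → (x ^ 2) ^ (m - 1) = x ^ (2 * m - 2) := by
    intro x hx
    rw [sq_rpow hx]
    congr 1
    ring
  rw [e a ha, e a' ha', e2 a ha, e2 a' ha']
  have hs : 0 < 2 * m - 2 := by linarith
  have hnn : 0 ≤ d ^ 2 * (a + a') ^ (2 * m - 2) :=
    mul_nonneg (sq_nonneg d) (Real.rpow_nonneg (by linarith) _)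
  have key : (a ^ (2 * m - 2) - a' ^ (2 * m - 2)) * (a ^ 2 - a' ^ 2) ≤
      4 * m * (d ^ 2 * (a + a') ^ (2 * m - 2)) := by
    rcases le_total a' a with h | h
    · have h1 := quadR0 hs ha' h ((le_abs_self _).trans hd)
      have h2 : 2 * (2 * m - 2 + 1) * (d ^ 2 * (a + a') ^ (2 * m - 2)) ≤
          4 * m * (d ^ 2 * (a + a') ^ (2 * m - 2)) :=
        mul_le_mul_of_nonneg_right (by linarith) hnn
      linarith
    · have h1 := quadR0 hs ha h (d := d) ((le_abs_self _).trans (by rwa [abs_sub_comm]))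
      rw [add_comm a' a] at h1
      have h2 : 2 * (2 * m - 2 + 1) * (d ^ 2 * (a + a') ^ (2 * m - 2)) ≤
          4 * m * (d ^ 2 * (a + a') ^ (2 * m - 2)) :=
        mul_le_mul_of_nonneg_right (by linarith) hnn
      linarith
  nlinarith

theorem quadER {m : ℝ} (hm : 1 < m) (u u' : ℂ) :
    (‖u‖ₑ ^ 2) ^ m + (‖u'‖ₑ ^ 2) ^ m ≤ (‖u‖ₑ ^ 2) ^ (m - 1) * ‖u'‖ₑ ^ 2 +
      (‖u'‖ₑ ^ 2) ^ (m - 1) * ‖u‖ₑ ^ 2 +
      ENNReal.ofReal (4 * m) * (‖u' - u‖ₑ ^ 2 * (‖u‖ₑ + ‖u'‖ₑ) ^ (2 * m - 2)) := by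
  have h := quadR hm (norm_nonneg u) (norm_nonneg u') (d := ‖u' - u‖) (by
    rw [abs_sub_comm]
    exact abs_norm_sub_norm_le u' u)
  have hm0 : 0 ≤ m := by linarith
  have a0 := norm_nonneg u
  have b0 := norm_nonneg u'
  have d0 := norm_nonneg (u' - u)
  rw [← ofReal_norm u, ← ofReal_norm u', ← ofReal_norm (u' - u), ← ENNReal.ofReal_pow a0,
    ← ENNReal.ofReal_pow b0, ← ENNReal.ofReal_pow d0, ← ENNReal.ofReal_add a0 b0,
    ENNReal.ofReal_rpow_of_nonneg (by positivity) hm0,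
    ENNReal.ofReal_rpow_of_nonneg (by positivity) hm0,
    ENNReal.ofReal_rpow_of_nonneg (by positivity) (by linarith),
    ENNReal.ofReal_rpow_of_nonneg (by positivity) (by linarith),
    ENNReal.ofReal_rpow_of_nonneg (by positivity) (by linarith),
    ← ENNReal.ofReal_mul (by positivity), ← ENNReal.ofReal_mul (by positivity),
    ← ENNReal.ofReal_mul (by positivity), ← ENNReal.ofReal_mul (by positivity),
    ← ENNReal.ofReal_add (by positivity) (by positivity),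
    ← ENNReal.ofReal_add (by positivity) (by positivity),
    ← ENNReal.ofReal_add (by positivity) (by positivity)]
  exact ENNReal.ofReal_le_ofReal h

theorem rpow_sub_add (x : ℝ≥0∞) {m : ℝ} (hm : 1 ≤ m) : x ^ m = x ^ (m - 1) * x := by
  conv_rhs => rw [← ENNReal.rpow_one x, ← ENNReal.rpow_mul, one_mul]
  rw [← ENNReal.rpow_add_of_nonneg _ _ (by linarith) (by norm_num)]
  congr 1
  ring

theorem amgmR {m : ℝ} (hm : 1 ≤ m) (x y : ℝ≥0∞) : x ^ (m - 1) * y ≤ x ^ m + y ^ m := by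
  have hm1 : 0 ≤ m - 1 := by linarith
  rcases le_total x y with h | h
  · calc x ^ (m - 1) * y ≤ y ^ (m - 1) * y := mul_le_mul_left (ENNReal.rpow_le_rpow h hm1) _
      _ = y ^ m := (rpow_sub_add y hm).symm
      _ ≤ x ^ m + y ^ m := le_add_self
  · calc x ^ (m - 1) * y ≤ x ^ (m - 1) * x := mul_le_mul_right h _
      _ = x ^ m := (rpow_sub_add x hm).symm
      _ ≤ x ^ m + y ^ m := le_self_add

/-! ### convexity with a quadratic error -/

theorem conv_errR {m : ℝ} (hm : 1 < m) {u : ℂ → ℂ} (hu : Continuous u)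
    (hfin : ∫⁻ x, ‖u x‖ₑ ^ (2 * m) ≠ ⊤) {p : ℂ → ℝ≥0∞} (hp : Measurable p)
    (hp1 : ∫⁻ y, p y = 1) (hev : ∀ y, p (-y) = p y) :
    ∫⁻ x, ‖u x‖ₑ ^ (2 * m) ≤ (∫⁻ x, (∫⁻ y, p y * ‖u (x + y)‖ₑ ^ 2) ^ m) +
      ENNReal.ofReal (4 * m * m) * ∫⁻ x, ∫⁻ y, p y * (‖u (x + y) - u x‖ₑ ^ 2 *
        (‖u x‖ₑ + ‖u (x + y)‖ₑ) ^ (2 * m - 2)) := by
  obtain ⟨V, hV⟩ : ∃ V : ℂ → ℝ≥0∞, ∀ x, V x = ‖u x‖ₑ ^ 2 := ⟨_, fun _ => rfl⟩
  have hVm : Measurable V := by
    have : V = fun x => ‖u x‖ₑ ^ 2 := funext hV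
    rw [this]
    exact hu.measurable.enorm.pow_const 2
  have hVt : ∀ x, V x ≠ ⊤ := by
    intro x
    rw [hV]
    exact ENNReal.pow_ne_top enorm_ne_top
  obtain ⟨I, hI⟩ : ∃ I : ℝ≥0∞, I = ∫⁻ x, V x ^ m := ⟨_, rfl⟩
  have hI' : ∫⁻ x, ‖u x‖ₑ ^ (2 * m) = I := by
    rw [hI]
    refine lintegral_congr fun x => ?_
    rw [hV, sqm]
  have hIt : I ≠ ⊤ := by rwa [hI'] at hfin
  -- measurability on the product
  have hadd : Measurable fun q : ℂ × ℂ => q.1 + q.2 := measurable_fst.add measurable_snd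
  have hVa : Measurable fun q : ℂ × ℂ => V (q.1 + q.2) := hVm.comp hadd
  have hVf : Measurable fun q : ℂ × ℂ => V q.1 := hVm.comp measurable_fst
  have hpS : Measurable fun q : ℂ × ℂ => p q.2 := hp.comp measurable_snd
  obtain ⟨Er, hEr⟩ : ∃ Er : ℂ → ℂ → ℝ≥0∞, ∀ x y, Er x y = ‖u (x + y) - u x‖ₑ ^ 2 *
        (‖u x‖ₑ + ‖u (x + y)‖ₑ) ^ (2 * m - 2) := ⟨_, fun _ _ => rfl⟩
  have hErm : Measurable fun q : ℂ × ℂ => Er q.1 q.2 := by
    have h1 : (fun q : ℂ × ℂ => Er q.1 q.2) = fun q : ℂ × ℂ => ‖u (q.1 + q.2) - u q.1‖ₑ ^ 2 *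
        (‖u q.1‖ₑ + ‖u (q.1 + q.2)‖ₑ) ^ (2 * m - 2) := funext fun q => hEr q.1 q.2
    rw [h1]
    have c1 : Measurable fun q : ℂ × ℂ => u (q.1 + q.2) := hu.measurable.comp hadd
    have c2 : Measurable fun q : ℂ × ℂ => u q.1 := hu.measurable.comp measurable_fst
    exact ((c1.sub c2).enorm.pow_const 2).mul ((c2.enorm.add c1.enorm).pow_const _)
  simp only [← hEr, ← hV]
  rw [hI']
  -- the mixed integral
  obtain ⟨J, hJ⟩ : ∃ J : ℝ≥0∞, J = ∫⁻ x, ∫⁻ y, p y * (V x ^ (m - 1) * V (x + y)) := ⟨_, rfl⟩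
  have hsw : ∀ F : ℂ → ℂ → ℝ≥0∞, Measurable (fun q : ℂ × ℂ => F q.1 q.2) →
      ∫⁻ x, ∫⁻ y, p y * F x y = ∫⁻ y, p y * ∫⁻ x, F x y := by
    intro F hF
    have h1 : Measurable (Function.uncurry fun x y : ℂ => p y * F x y) := hpS.mul hF
    rw [lintegral_lintegral_swap h1.aemeasurable]
    refine lintegral_congr fun y => ?_
    have hFy : Measurable fun x : ℂ => F x y := hF.comp (measurable_id.prodMk measurable_const)
    rw [lintegral_const_mul _ hFy]
  have hI1 : ∫⁻ x, ∫⁻ y, p y * V x ^ m = I := by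
    rw [hsw (fun x _ => V x ^ m) (hVf.pow_const m), ← hI, lintegral_mul_const _ hp, hp1, one_mul]
  have hI2 : ∫⁻ x, ∫⁻ y, p y * V (x + y) ^ m = I := by
    rw [hsw (fun x y => V (x + y) ^ m) (hVa.pow_const m)]
    have h1 : ∀ y : ℂ, p y * ∫⁻ x, V (x + y) ^ m = p y * I := by
      intro y
      rw [lintegral_add_right_eq_self (fun z => V z ^ m) y, ← hI]
    rw [lintegral_congr h1, lintegral_mul_const _ hp, hp1, one_mul]
  have hJ2 : ∫⁻ x, ∫⁻ y, p y * (V (x + y) ^ (m - 1) * V x) = J := by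
    rw [hsw (fun x y => V (x + y) ^ (m - 1) * V x) ((hVa.pow_const _).mul hVf), hJ,
      hsw (fun x y => V x ^ (m - 1) * V (x + y)) ((hVf.pow_const _).mul hVa)]
    rw [← lintegral_neg_eq_self (fun y : ℂ => p y * ∫⁻ x, V x ^ (m - 1) * V (x + y))]
    refine lintegral_congr fun y => ?_
    rw [hev]
    congr 1
    rw [← lintegral_add_right_eq_self (fun x => V x ^ (m - 1) * V (x + -y)) y]
    refine lintegral_congr fun x => ?_
    rw [add_neg_cancel_right]
  have hJt : J ≠ ⊤ := by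
    have h1 : J ≤ I + I := by
      calc J ≤ ∫⁻ x, ∫⁻ y, (p y * V x ^ m + p y * V (x + y) ^ m) := by
            rw [hJ]
            refine lintegral_mono fun x => lintegral_mono fun y => ?_
            rw [← mul_add]
            gcongr
            exact amgmR hm.le _ _
        _ = I + I := by
            have h2 : ∀ x, ∫⁻ y, (p y * V x ^ m + p y * V (x + y) ^ m) =
                (∫⁻ y, p y * V x ^ m) + ∫⁻ y, p y * V (x + y) ^ m := by
              intro x
              exact lintegral_add_left (hp.mul_const _) _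
            have h3 : Measurable fun x : ℂ => ∫⁻ y, p y * V x ^ m :=
              Measurable.lintegral_prod_right' (f := fun q : ℂ × ℂ => p q.2 * V q.1 ^ m)
                (hpS.mul (hVf.pow_const m))
            rw [lintegral_congr h2, lintegral_add_left h3, hI1, hI2]
    exact ne_top_of_le_ne_top (ENNReal.add_ne_top.2 ⟨hIt, hIt⟩) h1
  -- first inequality
  obtain ⟨Ls, hLs⟩ : ∃ Ls : ℝ≥0∞, Ls = ∫⁻ x, (∫⁻ y, p y * V (x + y)) ^ m := ⟨_, rfl⟩
  rw [← hLs]
  have hQm : Measurable fun x : ℂ => ∫⁻ y, p y * V (x + y) :=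
    Measurable.lintegral_prod_right' (f := fun q : ℂ × ℂ => p q.2 * V (q.1 + q.2)) (hpS.mul hVa)
  have hA : I + ENNReal.ofReal m * J ≤ Ls + ENNReal.ofReal m * I := by
    have h1 : ∀ x, V x ^ m + ENNReal.ofReal m * (V x ^ (m - 1) * ∫⁻ y, p y * V (x + y)) ≤
        (∫⁻ y, p y * V (x + y)) ^ m + ENNReal.ofReal m * V x ^ m := fun x => bernER hm (hVt x)
    have h2 := lintegral_mono (μ := (volume : Measure ℂ)) h1
    have hq1 : Measurable fun x : ℂ => V x ^ (m - 1) * ∫⁻ y, p y * V (x + y) :=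
      (hVm.pow_const _).mul hQm
    rw [lintegral_add_left (hVm.pow_const m), lintegral_add_left (hQm.pow_const m),
      lintegral_const_mul _ hq1, lintegral_const_mul _ (hVm.pow_const m),
      ← hI, ← hLs] at h2
    have h3 : ∫⁻ x, V x ^ (m - 1) * ∫⁻ y, p y * V (x + y) = J := by
      rw [hJ]
      refine lintegral_congr fun x => ?_
      have hpx : Measurable fun y : ℂ => p y * V (x + y) :=
        hp.mul (hVm.comp (measurable_const_add x))
      rw [← lintegral_const_mul _ hpx]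
      refine lintegral_congr fun y => ?_
      ring
    rw [h3] at h2
    exact h2
  -- second inequality
  obtain ⟨R, hR⟩ : ∃ R : ℝ≥0∞, R = ∫⁻ x, ∫⁻ y, p y * Er x y := ⟨_, rfl⟩
  rw [← hR]
  have hB : I + I ≤ J + J + ENNReal.ofReal (4 * m) * R := by
    have h1 : ∀ x y, p y * V x ^ m + p y * V (x + y) ^ m ≤
        p y * (V x ^ (m - 1) * V (x + y)) + p y * (V (x + y) ^ (m - 1) * V x) +
          ENNReal.ofReal (4 * m) * (p y * Er x y) := by
      intro x y
      have h2 := quadER hm (u x) (u (x + y))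
      rw [← hEr, ← hV, ← hV] at h2
      calc p y * V x ^ m + p y * V (x + y) ^ m = p y * (V x ^ m + V (x + y) ^ m) := by ring
        _ ≤ p y * (V x ^ (m - 1) * V (x + y) + V (x + y) ^ (m - 1) * V x +
              ENNReal.ofReal (4 * m) * Er x y) := by
            gcongr
        _ = _ := by ring
    have h2 := lintegral_mono (μ := (volume : Measure ℂ)) fun x =>
      lintegral_mono (μ := (volume : Measure ℂ)) (h1 x)
    have g1 : Measurable fun q : ℂ × ℂ => p q.2 * V q.1 ^ m := hpS.mul (hVf.pow_const m)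
    have g2 : Measurable fun q : ℂ × ℂ => p q.2 * (V q.1 ^ (m - 1) * V (q.1 + q.2)) :=
      hpS.mul ((hVf.pow_const _).mul hVa)
    have g3 : Measurable fun q : ℂ × ℂ => p q.2 * (V (q.1 + q.2) ^ (m - 1) * V q.1) :=
      hpS.mul ((hVa.pow_const _).mul hVf)
    have g4 : Measurable fun q : ℂ × ℂ => p q.2 * Er q.1 q.2 := hpS.mul hErm
    have s1 : ∀ (F : ℂ × ℂ → ℝ≥0∞), Measurable F → ∀ x : ℂ, Measurable fun y => F (x, y) :=
      fun F hF x => hF.comp (measurable_const.prodMk measurable_id)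
    have k1 : Measurable fun x : ℂ => ∫⁻ y, p y * V x ^ m := g1.lintegral_prod_right'
    have k2 : Measurable fun x : ℂ => ∫⁻ y, p y * (V x ^ (m - 1) * V (x + y)) :=
      g2.lintegral_prod_right'
    have k3 : Measurable fun x : ℂ => ∫⁻ y, p y * (V (x + y) ^ (m - 1) * V x) :=
      g3.lintegral_prod_right'
    have k4 : Measurable fun x : ℂ => ∫⁻ y, p y * Er x y := g4.lintegral_prod_right'
    have j2 : ∀ x : ℂ, Measurable fun y => p y * (V x ^ (m - 1) * V (x + y)) := s1 _ g2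
    have j3 : ∀ x : ℂ, Measurable fun y => p y * (V (x + y) ^ (m - 1) * V x) := s1 _ g3
    have j4 : ∀ x : ℂ, Measurable fun y => p y * Er x y := s1 _ g4
    have e1 : ∫⁻ x, ∫⁻ y, (p y * V x ^ m + p y * V (x + y) ^ m) = I + I := by
      have h3 : ∀ x, ∫⁻ y, (p y * V x ^ m + p y * V (x + y) ^ m) =
          (∫⁻ y, p y * V x ^ m) + ∫⁻ y, p y * V (x + y) ^ m := fun x =>
        lintegral_add_left (hp.mul_const _) _
      rw [lintegral_congr h3, lintegral_add_left k1, hI1, hI2]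
    have e2 : ∫⁻ x, ∫⁻ y, (p y * (V x ^ (m - 1) * V (x + y)) +
        p y * (V (x + y) ^ (m - 1) * V x) + ENNReal.ofReal (4 * m) * (p y * Er x y)) =
          J + J + ENNReal.ofReal (4 * m) * R := by
      have h3 : ∀ x, ∫⁻ y, (p y * (V x ^ (m - 1) * V (x + y)) +
          p y * (V (x + y) ^ (m - 1) * V x) + ENNReal.ofReal (4 * m) * (p y * Er x y)) =
          (∫⁻ y, p y * (V x ^ (m - 1) * V (x + y))) + (∫⁻ y, p y * (V (x + y) ^ (m - 1) * V x)) +
            ENNReal.ofReal (4 * m) * ∫⁻ y, p y * Er x y := by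
        intro x
        have j5 : Measurable fun y : ℂ => p y * (V x ^ (m - 1) * V (x + y)) +
          p y * (V (x + y) ^ (m - 1) * V x) := (j2 x).add (j3 x)
        rw [lintegral_add_left j5, lintegral_add_left (j2 x),
          lintegral_const_mul _ (j4 x)]
      have k5 : Measurable fun x : ℂ => (∫⁻ y, p y * (V x ^ (m - 1) * V (x + y))) +
          ∫⁻ y, p y * (V (x + y) ^ (m - 1) * V x) := k2.add k3
      rw [lintegral_congr h3, lintegral_add_left k5, lintegral_add_left k2,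
        lintegral_const_mul _ k4, ← hJ, hJ2, ← hR]
    rw [e1, e2] at h2
    exact h2
  -- combination
  by_cases hRt : R = ⊤
  · rw [hRt]
    have hm0 : ENNReal.ofReal (4 * m * m) ≠ 0 := by
      rw [Ne, ENNReal.ofReal_eq_zero, not_le]
      nlinarith
    rw [ENNReal.mul_top hm0, add_top]
    exact le_top
  by_cases hLt : Ls = ⊤
  · rw [hLt, top_add]
    exact le_top
  have hm0 : 0 ≤ m := by linarith
  have fin : ∀ z : ℝ≥0∞, z ≠ ⊤ → z = ENNReal.ofReal z.toReal := fun z hz =>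
    (ENNReal.ofReal_toReal hz).symm
  obtain ⟨i, hi0, hi⟩ : ∃ i : ℝ, 0 ≤ i ∧ I = ENNReal.ofReal i := ⟨_, ENNReal.toReal_nonneg, fin _ hIt⟩
  obtain ⟨j, hj0, hj⟩ : ∃ j : ℝ, 0 ≤ j ∧ J = ENNReal.ofReal j := ⟨_, ENNReal.toReal_nonneg, fin _ hJt⟩
  obtain ⟨r, hr0, hr⟩ : ∃ r : ℝ, 0 ≤ r ∧ R = ENNReal.ofReal r := ⟨_, ENNReal.toReal_nonneg, fin _ hRt⟩
  obtain ⟨l, hl0, hl⟩ : ∃ l : ℝ, 0 ≤ l ∧ Ls = ENNReal.ofReal l := ⟨_, ENNReal.toReal_nonneg, fin _ hLt⟩
  rw [hi, hj, hl, ← ENNReal.ofReal_mul hm0, ← ENNReal.ofReal_mul hm0,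
    ← ENNReal.ofReal_add hi0 (by positivity), ← ENNReal.ofReal_add hl0 (by positivity),
    ENNReal.ofReal_le_ofReal_iff (by positivity)] at hA
  rw [hi, hj, hr, ← ENNReal.ofReal_mul (by positivity), ← ENNReal.ofReal_add hi0 hi0,
    ← ENNReal.ofReal_add hj0 hj0, ← ENNReal.ofReal_add (by positivity) (by positivity),
    ENNReal.ofReal_le_ofReal_iff (by positivity)] at hB
  rw [hi, hl, hr, ← ENNReal.ofReal_mul (by positivity), ← ENNReal.ofReal_add hl0 (by positivity)]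
  apply ENNReal.ofReal_le_ofReal
  nlinarith [mul_le_mul_of_nonneg_left hB hm0, mul_nonneg (mul_nonneg hm0 hm0) hr0]

end Pool.Agent.H56.RP.SUQ
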