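import Pool.Agent.H10.RP.Stm
import Pool.Agent.H56.RP.SUQA
import Pool.Agent.H56.RP.STR
import Pool.Agent.H56.RP.CMP

/-!
SUQ, real exponents: the lower energy inequality for any number of windows (port of N892/BW/SUQ.lean).
-/

set_option autoImplicit false

open MeasureTheory ENNReal Filter Topology Complex
open scoped ComplexConjugate ContDiff FourierTransform

namespace Pool.Agent.H56.RP.SUQ

open Pool.Agent.N892.BW Pool.Agent.N892.BW.SUQ Pool.Agent.H10.RP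
open Pool.Agent.H56.RP.LPSCLS (sqm)

theorem averR {m : ℝ} (hm : 1 ≤ m) {p P : ℂ → ℝ≥0∞} (hp : Measurable p) (hP : Measurable P)
    (h1 : ∫⁻ y, p y = 1) : ∫⁻ z, (∫⁻ y, p y * P (z + y)) ^ m ≤ ∫⁻ z, P z ^ m := by
  have h := CMP.youngR hp hP m hm
  rw [h1, ENNReal.one_rpow, one_mul] at h
  exact h

/-- the energy inequality -/
theorem energyR (hB : S_BAS) (hC : S_CNV) (hP : S_PRD) {χ : ℂ → ℝ} {k : ℂ → ℂ} (hk : Bd 0 1 k)
    (hkχ : ∀ x, Fi k x = (χ x : ℂ)) (hev : ∀ x, χ (-x) = χ x) (hD : Den χ) {m : ℝ} (hm1 : 1 ≤ m)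
    {ρ b a' b' : ℝ} (hρ : 0 < ρ) (hab : b + 1 / ρ < a') {h₁ h₂ : ℂ → ℂ}
    (H₁ : Bd 0 b h₁) (H₂ : Bd a' b' h₂) :
    Lr m χ ρ (Fi h₁) + Lr m χ ρ (Fi h₂) ≤ Nr m (Fi fun ξ => h₁ ξ + h₂ ξ) := by
  obtain ⟨hpm, hp1⟩ := dens hD hρ
  obtain ⟨A, hA⟩ : ∃ A : (ℂ → ℂ) → ℂ → ℝ≥0∞, ∀ f z, A f z =
      ∫⁻ y, ENNReal.ofReal (sc χ ρ y) * ‖f (z + y)‖ₑ ^ 2 := ⟨_, fun f z => rfl⟩
  have hLr : ∀ f, Lr m χ ρ f = ∫⁻ z, A f z ^ m := by
    intro f
    unfold Lr
    simp only [hA]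
  have hAm : ∀ f : ℂ → ℂ, Continuous f → Measurable (A f) := by
    intro f hf
    have h1 : A f = fun z => ∫⁻ y, ENNReal.ofReal (sc χ ρ y) * ‖f (z + y)‖ₑ ^ 2 := funext (hA f)
    rw [h1]
    have hj : Measurable (Function.uncurry fun z y : ℂ =>
        ENNReal.ofReal (sc χ ρ y) * ‖f (z + y)‖ₑ ^ 2) :=
      (hpm.comp measurable_snd).mul
        ((hf.measurable.comp (measurable_fst.add measurable_snd)).enorm.pow_const 2)
    exact hj.lintegral_prod_right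
  have huc : Continuous (Fi h₁) := (hB b h₁ H₁).1
  have hvc : Continuous (Fi h₂) := (hB b' h₂ (SUP.Bd_zero H₂)).1
  have hwc : Continuous (Fi fun ξ => h₁ ξ + h₂ ξ) := by
    have : (Fi fun ξ => h₁ ξ + h₂ ξ) = fun x => Fi h₁ x + Fi h₂ x := funext (SUP.Fi_add H₁ H₂)
    rw [this]
    exact huc.add hvc
  have h1 : ∀ z, A (Fi fun ξ => h₁ ξ + h₂ ξ) z = A (Fi h₁) z + A (Fi h₂) z := by
    intro z
    rw [hA, hA, hA]
    exact SUP.high hB hC hP hk hkχ hD.2.1 hev hρ hab H₁ H₂ z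
  have h2 : ∫⁻ z, A (Fi fun ξ => h₁ ξ + h₂ ξ) z ^ m ≤ Nr m (Fi fun ξ => h₁ ξ + h₂ ξ) := by
    have h3 := averR hm1 hpm (P := fun x => ‖Fi (fun ξ => h₁ ξ + h₂ ξ) x‖ₑ ^ 2)
      (hwc.measurable.enorm.pow_const 2) hp1
    simp only [← hA] at h3
    refine h3.trans (le_of_eq ?_)
    unfold Nr
    refine lintegral_congr fun x => ?_
    rw [sqm]
  refine le_trans ?_ h2
  rw [hLr, hLr, ← lintegral_add_left ((hAm _ huc).pow_const m)]
  refine lintegral_mono fun z => ?_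
  rw [h1]
  exact ENNReal.add_rpow_le_rpow_add (A (Fi h₁) z) (A (Fi h₂) z) hm1

/-- the error at one step -/
theorem err_bdR (hB : S_BAS) {m : ℝ} (hm1 : 1 < m) {μ M L : ℕ} {a b : ℕ → ℝ} {H : ℕ → ℂ → ℂ}
    (hm : 1 ≤ μ) (hLm : 8 + 4 * (2 * m - 2) ≤ (L : ℝ)) (hS : Sep μ M a b H) {C1 C2 cP K : ℝ} (hC1 : 0 ≤ C1) (hC2 : 0 ≤ C2) (hcP0 : 0 ≤ cP)
    (hMAJ : ∀ (b : ℝ) (h : ℂ → ℂ) (x y : ℂ), 0 < b → Bd 0 b h →
      ‖Fi h (x + y) - Fi h x‖ₑ ≤
        ENNReal.ofReal (C1 * (b * ‖y‖) * (1 + b * ‖y‖) ^ 4) * cv (PP b) (fun z => ‖Fi h z‖ₑ) x)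
    (hLOW : ∀ (b b' : ℝ) (h₁ h₂ : ℂ → ℂ) (x y : ℂ), 0 < b → Bd 0 b h₁ → Bd (2 * b) b' h₂ →
      ‖Fi h₁ (x + y)‖ₑ ≤ ENNReal.ofReal (C2 * (1 + b * ‖y‖) ^ 4) *
        mx (fun z => ‖Fi (fun ξ => h₁ ξ + h₂ ξ) z‖ₑ) x)
    (hcP : ∀ β : ℝ, 0 < β → ∫⁻ x, PP β x ≤ ENNReal.ofReal cP)
    {χ : ℂ → ℝ} (hD : Den χ) (hev : ∀ x, χ (-x) = χ x)
    (hmom : ∀ ρ β : ℝ, 0 < ρ → 0 ≤ β → ρ * β ≤ 1 →
      ∫⁻ y : ℂ, ENNReal.ofReal (sc χ ρ y) *
        ENNReal.ofReal (‖y‖ ^ 2 * (1 + β * ‖y‖) ^ L) ≤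
        ENNReal.ofReal (K * ρ ^ 2))
    {W : ℂ → ℝ≥0∞} (hW : W = mx (fun z => ‖Fi (sm H M) z‖ₑ)) (hWm : Measurable W)
    {k : ℕ} (hk : k + 1 ≤ M) {ρ : ℝ} (hρ : 0 < ρ) (hρb : ρ * b k ≤ 1) :
    Nr m (Fi (sm H (k + 1))) ≤ Lr m χ ρ (Fi (sm H (k + 1))) +
      ENNReal.ofReal (4 * m * m) * (ENNReal.ofReal (K * ρ ^ 2) *
        (ENNReal.ofReal (2 * C1 ^ 2 * cP * (2 * C2) ^ (2 * m - 2) * b k) *
        ∑ j ∈ Finset.range (k + 1), ENNReal.ofReal (b j) *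
          ∫⁻ x, cv (PP (b j)) (fun z => ‖Fi (H j) z‖ₑ ^ 2) x * W x ^ (2 * m - 2))) := by
  have hbk : 0 < b k := bt_pos hS (k := k) (by omega)
  have hBd := Bd_sm hm hS (k + 1) hk
  have hbt : bt b (k + 1) = b k := rfl
  rw [hbt] at hBd
  obtain ⟨u, hu⟩ : ∃ u : ℂ → ℂ, u = Fi (sm H (k + 1)) := ⟨_, rfl⟩
  have huc : Continuous u := by
    rw [hu]
    exact (hB _ _ hBd).1
  have hfin := (STR.nr_lt hm1.le (hB _ _ hBd).2.2.1).ne
  obtain ⟨hpm, hp1⟩ := dens hD hρ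
  rw [← hu] at hfin ⊢
  have hpe : ∀ y, ENNReal.ofReal (sc χ ρ (-y)) = ENNReal.ofReal (sc χ ρ y) := by
    intro y
    unfold sc
    rw [mul_neg, hev]
  have h1 := conv_errR hm1 huc hfin hpm hp1 hpe
  refine h1.trans (add_le_add le_rfl (mul_le_mul' le_rfl ?_))
  -- the pointwise bound
  have hrest : ∀ x y, ‖u (x + y)‖ₑ ≤ ENNReal.ofReal (C2 * (1 + b k * ‖y‖) ^ 4) * W x := by
    intro x y
    obtain ⟨d, hd⟩ : ∃ d, k + 1 + d = M := ⟨M - (k + 1), by omega⟩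
    have h2 := Bd_rest hm hS (k := k + 1) d (by omega)
    rw [hbt, hd] at h2
    have h3 := hLOW (b k) _ _ _ x y hbk hBd h2
    have h4 : (fun ξ => sm H (k + 1) ξ + (sm H M ξ - sm H (k + 1) ξ)) = sm H M := by
      funext ξ
      ring
    rw [h4, ← hW, ← hu] at h3
    exact h3
  have hsum : ∀ x y, ‖u x‖ₑ + ‖u (x + y)‖ₑ ≤
      ENNReal.ofReal (2 * C2 * (1 + b k * ‖y‖) ^ 4) * W x := by
    intro x y
    have hy := norm_nonneg y
    have h2 := hrest x 0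
    rw [add_zero, norm_zero, mul_zero, add_zero, one_pow, mul_one] at h2
    have h3 : ENNReal.ofReal C2 * W x ≤ ENNReal.ofReal (C2 * (1 + b k * ‖y‖) ^ 4) * W x := by
      refine mul_le_mul' (ENNReal.ofReal_le_ofReal ?_) le_rfl
      have : (1 : ℝ) ≤ (1 + b k * ‖y‖) ^ 4 := one_le_pow₀ (by nlinarith)
      nlinarith
    calc ‖u x‖ₑ + ‖u (x + y)‖ₑ ≤ ENNReal.ofReal (C2 * (1 + b k * ‖y‖) ^ 4) * W x +
          ENNReal.ofReal (C2 * (1 + b k * ‖y‖) ^ 4) * W x :=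
            add_le_add (h2.trans h3) (hrest x y)
      _ = ENNReal.ofReal (2 * C2 * (1 + b k * ‖y‖) ^ 4) * W x := by
          rw [← add_mul, ← ENNReal.ofReal_add (by positivity) (by positivity)]
          congr 2
          ring
  have hpt : ∀ x y, ENNReal.ofReal (sc χ ρ y) * (‖u (x + y) - u x‖ₑ ^ 2 *
      (‖u x‖ₑ + ‖u (x + y)‖ₑ) ^ (2 * m - 2)) ≤
      (ENNReal.ofReal (sc χ ρ y) *
        ENNReal.ofReal (‖y‖ ^ 2 * (1 + b k * ‖y‖) ^ L)) *
      (ENNReal.ofReal (2 * C1 ^ 2 * cP * (2 * C2) ^ (2 * m - 2) * b k) *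
        (RR b H (k + 1) x * W x ^ (2 * m - 2))) := by
    intro x y
    have hy := norm_nonneg y
    have h2 := diff_bd hB hm hS hC1 hcP0 hMAJ hcP x y (k + 1) hk
    rw [← hu, hbt] at h2
    rw [mul_assoc]
    refine mul_le_mul' le_rfl ?_
    calc ‖u (x + y) - u x‖ₑ ^ 2 * (‖u x‖ₑ + ‖u (x + y)‖ₑ) ^ (2 * m - 2)
        ≤ (ENNReal.ofReal (2 * C1 ^ 2 * cP * (‖y‖ ^ 2 * (1 + b k * ‖y‖) ^ 8) * b k) *
            RR b H (k + 1) x) *
          (ENNReal.ofReal (2 * C2 * (1 + b k * ‖y‖) ^ 4) * W x) ^ (2 * m - 2) := by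
          refine mul_le_mul' h2 ?_
          exact ENNReal.rpow_le_rpow (hsum x y) (by linarith)
      _ = (ENNReal.ofReal (2 * C1 ^ 2 * cP * (‖y‖ ^ 2 * (1 + b k * ‖y‖) ^ 8) * b k) *
          ENNReal.ofReal ((2 * C2 * (1 + b k * ‖y‖) ^ 4) ^ (2 * m - 2))) *
            (RR b H (k + 1) x * W x ^ (2 * m - 2)) := by
          rw [ENNReal.mul_rpow_of_nonneg _ _ (by linarith),
            ENNReal.ofReal_rpow_of_nonneg (by positivity) (by linarith)]
          ring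
      _ ≤ (ENNReal.ofReal (‖y‖ ^ 2 * (1 + b k * ‖y‖) ^ L) *
          ENNReal.ofReal (2 * C1 ^ 2 * cP * (2 * C2) ^ (2 * m - 2) * b k)) *
            (RR b H (k + 1) x * W x ^ (2 * m - 2)) := by
          rw [← ENNReal.ofReal_mul (by positivity), ← ENNReal.ofReal_mul (by positivity)]
          refine mul_le_mul' (ENNReal.ofReal_le_ofReal ?_) le_rfl
          have hby : 0 ≤ b k * ‖y‖ := mul_nonneg hbk.le hy
          have h5 : (1 + b k * ‖y‖) ^ 8 * ((1 + b k * ‖y‖) ^ 4) ^ (2 * m - 2) ≤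
              (1 + b k * ‖y‖) ^ L := by
            rw [← Real.rpow_natCast _ 8, ← Real.rpow_natCast _ 4, ← Real.rpow_natCast _ L,
              ← Real.rpow_mul (by positivity), ← Real.rpow_add (by positivity)]
            apply Real.rpow_le_rpow_of_exponent_le (by linarith)
            push_cast
            exact hLm
          have h6 : (2 * C2 * (1 + b k * ‖y‖) ^ 4) ^ (2 * m - 2) =
              (2 * C2) ^ (2 * m - 2) * ((1 + b k * ‖y‖) ^ 4) ^ (2 * m - 2) :=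
            Real.mul_rpow (by positivity) (by positivity)
          rw [h6]
          have h7 : 0 ≤ 2 * C1 ^ 2 * cP * ‖y‖ ^ 2 * b k * (2 * C2) ^ (2 * m - 2) := by positivity
          calc 2 * C1 ^ 2 * cP * (‖y‖ ^ 2 * (1 + b k * ‖y‖) ^ 8) * b k *
                ((2 * C2) ^ (2 * m - 2) * ((1 + b k * ‖y‖) ^ 4) ^ (2 * m - 2))
              = 2 * C1 ^ 2 * cP * ‖y‖ ^ 2 * b k * (2 * C2) ^ (2 * m - 2) *
                ((1 + b k * ‖y‖) ^ 8 * ((1 + b k * ‖y‖) ^ 4) ^ (2 * m - 2)) := by ring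
            _ ≤ 2 * C1 ^ 2 * cP * ‖y‖ ^ 2 * b k * (2 * C2) ^ (2 * m - 2) *
                (1 + b k * ‖y‖) ^ L := mul_le_mul_of_nonneg_left h5 h7
            _ = _ := by ring
      _ = _ := by rw [mul_assoc]
  have hwm : Measurable fun y : ℂ => ENNReal.ofReal (sc χ ρ y) *
      ENNReal.ofReal (‖y‖ ^ 2 * (1 + b k * ‖y‖) ^ L) := by
    refine hpm.mul (Measurable.ennreal_ofReal ?_)
    fun_prop
  have hGm : ∀ j, j < M → Measurable (cv (PP (b j)) (fun z => ‖Fi (H j) z‖ₑ ^ 2)) := by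
    intro j hj
    obtain ⟨-, -, h3, -⟩ := hS j hj
    exact cv_meas (PP_meas _) ((hB _ _ (SUP.Bd_zero h3)).1.measurable.enorm.pow_const 2)
  calc ∫⁻ x, ∫⁻ y, ENNReal.ofReal (sc χ ρ y) * (‖u (x + y) - u x‖ₑ ^ 2 *
      (‖u x‖ₑ + ‖u (x + y)‖ₑ) ^ (2 * m - 2))
      ≤ ∫⁻ x, ENNReal.ofReal (K * ρ ^ 2) *
        (ENNReal.ofReal (2 * C1 ^ 2 * cP * (2 * C2) ^ (2 * m - 2) * b k) *
        (RR b H (k + 1) x * W x ^ (2 * m - 2))) := by
        refine lintegral_mono fun x => ?_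
        refine (lintegral_mono (hpt x)).trans ?_
        rw [lintegral_mul_const _ hwm]
        exact mul_le_mul' (hmom ρ (b k) hρ hbk.le hρb) le_rfl
    _ = ENNReal.ofReal (K * ρ ^ 2) *
        (ENNReal.ofReal (2 * C1 ^ 2 * cP * (2 * C2) ^ (2 * m - 2) * b k) *
        ∫⁻ x, RR b H (k + 1) x * W x ^ (2 * m - 2)) := by
        rw [lintegral_const_mul' _ _ ENNReal.ofReal_ne_top,
          lintegral_const_mul' _ _ ENNReal.ofReal_ne_top]
    _ = _ := by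
        congr 2
        have h2 : ∀ x, RR b H (k + 1) x * W x ^ (2 * m - 2) =
            ∑ j ∈ Finset.range (k + 1), ENNReal.ofReal (b j) *
              (cv (PP (b j)) (fun z => ‖Fi (H j) z‖ₑ ^ 2) x * W x ^ (2 * m - 2)) := by
          intro x
          unfold RR
          rw [Finset.sum_mul]
          refine Finset.sum_congr rfl fun j _ => ?_
          ring
        rw [lintegral_congr h2, lintegral_finsetSum']
        · refine Finset.sum_congr rfl fun j _ => ?_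
          rw [lintegral_const_mul' _ _ ENNReal.ofReal_ne_top]
        · intro j hj
          have hj' : j < M := by
            have := Finset.mem_range.1 hj
            omega
          exact (((hGm j hj').mul (hWm.pow_const _)).const_mul _).aemeasurable

/-- the sum of all the averages against the maximal function -/
theorem X_sumR (hB : S_BAS) (h4 : S_HLM) (h5 : R_DMX) (h8 : R_LPF) {m : ℝ} (hm1 : 1 ≤ m) {μ : ℕ}
    (hm : 1 ≤ μ) :
    ∃ C3 : ℝ, 0 ≤ C3 ∧ ∀ (M : ℕ) (a b : ℕ → ℝ) (H : ℕ → ℂ → ℂ), Sep μ M a b H →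
      Measurable (mx (fun z => ‖Fi (sm H M) z‖ₑ)) ∧
      ∑ j ∈ Finset.range M, (∫⁻ x, cv (PP (b j)) (fun z => ‖Fi (H j) z‖ₑ ^ 2) x *
        (mx (fun z => ‖Fi (sm H M) z‖ₑ) x) ^ (2 * m - 2)) ≤
        ENNReal.ofReal C3 * Nr m (Fi (sm H M)) := by
  obtain ⟨Ch, hCh, hH⟩ := h4 (2 * m) (by linarith)
  obtain ⟨Cd, hCd, hDm⟩ := h5 m hm1
  obtain ⟨Cl, hCl, hL⟩ := h8 m μ hm1 hm
  refine ⟨Ch + Cd * Cl, by positivity, fun M a b H hS => ?_⟩
  have hwc : Continuous (Fi (sm H M)) := (hB _ _ (Bd_sm hm hS M le_rfl)).1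
  obtain ⟨W, hW⟩ : ∃ W : ℂ → ℝ≥0∞, W = mx (fun z => ‖Fi (sm H M) z‖ₑ) := ⟨_, rfl⟩
  obtain ⟨hWm, hWi⟩ := hH (fun z => ‖Fi (sm H M) z‖ₑ) hwc.measurable.enorm
  rw [← hW] at hWm hWi ⊢
  refine ⟨hWm, ?_⟩
  have hfc : ∀ j, j < M → Continuous (Fi (H j)) := by
    intro j hj
    obtain ⟨-, -, h3, -⟩ := hS j hj
    exact (hB _ _ (SUP.Bd_zero h3)).1
  obtain ⟨G, hG⟩ : ∃ G : ℕ → ℂ → ℝ≥0∞, ∀ j x, G j x =
      cv (PP (b j)) (fun z => ‖Fi (H j) z‖ₑ ^ 2) x := ⟨_, fun _ _ => rfl⟩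
  have hGm : ∀ j, j < M → Measurable (G j) := by
    intro j hj
    have h1 : G j = cv (PP (b j)) (fun z => ‖Fi (H j) z‖ₑ ^ 2) := funext (hG j)
    rw [h1]
    exact cv_meas (PP_meas _) ((hfc j hj).measurable.enorm.pow_const 2)
  simp only [← hG]
  -- the square function
  have hsq : ∫⁻ x, (∑ j ∈ Finset.range M, G j x) ^ m ≤
      ENNReal.ofReal (Cd * Cl) * Nr m (Fi (sm H M)) := by
    have h1 := hDm M (fun i => if i < M then b i else 1)
      (fun i x => if i < M then ‖Fi (H i) x‖ₑ ^ 2 else 0) (fun i => by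
        by_cases hi : i < M
        · simp only [hi, if_true]
          exact bt_pos hS hi
        · simp only [hi, if_false]
          norm_num) (fun i => by
        by_cases hi : i < M
        · simp only [hi, if_true]
          exact (hfc i hi).measurable.enorm.pow_const 2
        · simp only [hi, if_false]
          exact measurable_const)
    have h2 : ∫⁻ x, (∑ i ∈ Finset.range M, cv (PP (if i < M then b i else 1))
        ((fun (i : ℕ) (x : ℂ) => if i < M then ‖Fi (H i) x‖ₑ ^ 2 else 0) i) x) ^ m =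
        ∫⁻ x, (∑ j ∈ Finset.range M, G j x) ^ m := by
      refine lintegral_congr fun x => ?_
      congr 1
      refine Finset.sum_congr rfl fun j hj => ?_
      have hj' := Finset.mem_range.1 hj
      simp only [hj', if_true]
      rw [hG]
    have h3 : ∫⁻ x, (∑ i ∈ Finset.range M,
        (fun (i : ℕ) (x : ℂ) => if i < M then ‖Fi (H i) x‖ₑ ^ 2 else 0) i x) ^ m = Sr m M H := by
      unfold Sr
      refine lintegral_congr fun x => ?_
      congr 1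
      refine Finset.sum_congr rfl fun j hj => ?_
      have hj' := Finset.mem_range.1 hj
      simp only [hj', if_true]
    rw [← h2]
    refine h1.trans ?_
    rw [h3, ENNReal.ofReal_mul hCd.le, mul_assoc]
    exact mul_le_mul' le_rfl (hL M a b H hS)
  -- the maximal function
  have hmx : ∫⁻ x, (W x ^ 2) ^ m ≤ ENNReal.ofReal Ch * Nr m (Fi (sm H M)) := by
    have h2 : ∫⁻ x, (W x ^ 2) ^ m = ∫⁻ x, W x ^ (2 * m) := by
      refine lintegral_congr fun x => ?_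
      rw [sqm]
    rw [h2]
    exact hWi
  have hGW : ∀ j, j < M → Measurable fun x => G j x * W x ^ (2 * m - 2) := fun j hj =>
    (hGm j hj).mul (hWm.pow_const _)
  calc ∑ j ∈ Finset.range M, (∫⁻ x, G j x * W x ^ (2 * m - 2))
      = ∫⁻ x, ∑ j ∈ Finset.range M, G j x * W x ^ (2 * m - 2) := by
        rw [lintegral_finsetSum']
        intro j hj
        exact (hGW j (Finset.mem_range.1 hj)).aemeasurable
    _ ≤ ∫⁻ x, ((W x ^ 2) ^ m + (∑ j ∈ Finset.range M, G j x) ^ m) := by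
        refine lintegral_mono fun x => ?_
        rw [← Finset.sum_mul, mul_comm, show 2 * m - 2 = 2 * (m - 1) by ring, ← sqm]
        exact amgmR hm1 _ _
    _ = (∫⁻ x, (W x ^ 2) ^ m) + ∫⁻ x, (∑ j ∈ Finset.range M, G j x) ^ m :=
        lintegral_add_left ((hWm.pow_const 2).pow_const m) _
    _ ≤ ENNReal.ofReal Ch * Nr m (Fi (sm H M)) +
          ENNReal.ofReal (Cd * Cl) * Nr m (Fi (sm H M)) := add_le_add hmx hsq
    _ = ENNReal.ofReal (Ch + Cd * Cl) * Nr m (Fi (sm H M)) := by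
        rw [ENNReal.ofReal_add hCh (by positivity), add_mul]

/-- **SUQ.** -/
theorem t0 (h1 : Pool.Agent.N892.BW.S_BAS) (h2 : Pool.Agent.N892.BW.S_CNV)
    (h3 : Pool.Agent.N892.BW.S_PRD) (h4 : Pool.Agent.N892.BW.S_HLM)
    (h5 : R_DMX) (h6 : Pool.Agent.N892.BW.S_MAJ)
    (h7 : Pool.Agent.N892.BW.S_LOW) (h8 : R_LPF) : R_SUQ := by
  obtain ⟨χ, k, hk, hkχ, hev, hD⟩ := SUP.cons h1 h3
  obtain ⟨C1, hC1, hMAJ⟩ := h6
  obtain ⟨C2, hC2, hLOW⟩ := h7
  obtain ⟨cP, hcP0, hcP⟩ := PP_mass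
  refine ⟨χ, hD, fun m μ hm1 hm => ?_⟩
  obtain ⟨C3, hC3, hX⟩ := X_sumR h1 h4 h5 h8 hm1.le hm
  obtain ⟨L, hLm⟩ : ∃ L : ℕ, 8 + 4 * (2 * m - 2) ≤ (L : ℝ) := exists_nat_ge _
  obtain ⟨Cd, hCd⟩ := (h1 1 k hk).2.1 (L + 5)
  have hfin := rad_int hD.2.1 (L := L) (C := Cd) (fun y => by
    have h9 := hCd y
    rw [hkχ, Complex.norm_real, Real.norm_of_nonneg (hD.2.1 y)] at h9
    exact h9)
  obtain ⟨K, hK, hmom⟩ := moment hD.2.1 hD.1 hfin
  obtain ⟨D, hDd⟩ : ∃ D : ℝ, D = 4 * m * m * (K * (2 * C1 ^ 2 * cP * (2 * C2) ^ (2 * m - 2))) :=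
    ⟨_, rfl⟩
  have hD0 : 0 ≤ D := by
    rw [hDd]
    positivity
  refine ⟨2 * D * C3, by positivity, fun M a b ρ H η hη0 hη1 hS hρ hρ0 hρk => ?_⟩
  obtain ⟨hWm, hXs⟩ := hX M a b H hS
  obtain ⟨W, hW⟩ : ∃ W : ℂ → ℝ≥0∞, W = mx (fun z => ‖Fi (sm H M) z‖ₑ) := ⟨_, rfl⟩
  obtain ⟨X, hXd⟩ : ∃ X : ℕ → ℝ≥0∞, ∀ j, X j =
      ∫⁻ x, cv (PP (b j)) (fun z => ‖Fi (H j) z‖ₑ ^ 2) x * W x ^ (2 * m - 2) := ⟨_, fun _ => rfl⟩
  rw [← hW] at hWm hXs
  simp only [← hXd] at hXs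
  have hstep : ∀ j, j < M → Nr m (Fi (sm H j)) + Lr m χ (ρ j) (Fi (H j)) ≤
      Nr m (Fi (sm H (j + 1))) + ENNReal.ofReal (D * η) * SS X j := by
    intro j hj
    obtain ⟨-, -, hBj, -⟩ := hS j hj
    have hgap : bt b j + 1 / ρ j < a j := by
      cases j with
      | zero =>
        show (0 : ℝ) + 1 / ρ 0 < a 0
        rw [zero_add]
        exact hρ0
      | succ i => exact (hρk i hj).2
    have hA : Lr m χ (ρ j) (Fi (sm H j)) + Lr m χ (ρ j) (Fi (H j)) ≤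
        Nr m (Fi (sm H (j + 1))) := by
      have h9 := energyR h1 h2 h3 hk hkχ hev hD hm1.le (hρ j) hgap (Bd_sm hm hS j hj.le) hBj
      rw [sm_succ]
      exact h9
    cases j with
    | zero =>
      have h9 : Nr m (Fi (sm H 0)) = 0 := by
        unfold Nr
        have h10 : ∀ x, ‖Fi (sm H 0) x‖ₑ ^ (2 * m) = 0 := by
          intro x
          rw [sm_zero, Fi_zero, enorm_zero]
          exact ENNReal.zero_rpow_of_pos (by linarith)
        rw [lintegral_congr h10, lintegral_zero]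
      rw [h9, zero_add]
      exact (le_add_self.trans hA).trans le_self_add
    | succ i =>
      obtain ⟨hρb, -⟩ := hρk i hj
      have hbi : 0 < b i := bt_pos hS (k := i) (by omega)
      have hE := err_bdR h1 hm1 hm hLm hS hC1 hC2 hcP0 (fun b h x y hb hh => (hMAJ b h x y hb hh).2) hLOW
        hcP hD hev hmom hW hWm (k := i) (by omega) (hρ (i + 1)) (hρb.trans hη1)
      simp only [← hXd] at hE
      have hE2 : ENNReal.ofReal (4 * m * m) * (ENNReal.ofReal (K * ρ (i + 1) ^ 2) *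
          (ENNReal.ofReal (2 * C1 ^ 2 * cP * (2 * C2) ^ (2 * m - 2) * b i) *
          ∑ j ∈ Finset.range (i + 1), ENNReal.ofReal (b j) * X j)) ≤
          ENNReal.ofReal (D * η) * SS X (i + 1) := by
        have h9 := SS_bd hm hS X (i + 1) (by omega)
        have hbt : bt b (i + 1) = b i := rfl
        rw [hbt] at h9
        calc ENNReal.ofReal (4 * m * m) * (ENNReal.ofReal (K * ρ (i + 1) ^ 2) *
            (ENNReal.ofReal (2 * C1 ^ 2 * cP * (2 * C2) ^ (2 * m - 2) * b i) *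
            ∑ j ∈ Finset.range (i + 1), ENNReal.ofReal (b j) * X j))
            ≤ ENNReal.ofReal (4 * m * m) * (ENNReal.ofReal (K * ρ (i + 1) ^ 2) *
            (ENNReal.ofReal (2 * C1 ^ 2 * cP * (2 * C2) ^ (2 * m - 2) * b i) *
            (ENNReal.ofReal (b i) * SS X (i + 1)))) := by gcongr
          _ = ENNReal.ofReal (D * (ρ (i + 1) * b i) ^ 2) * SS X (i + 1) := by
              rw [← mul_assoc, ← mul_assoc, ← mul_assoc,
                ← ENNReal.ofReal_mul (by positivity),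
                ← ENNReal.ofReal_mul (by positivity), ← ENNReal.ofReal_mul (by positivity), hDd]
              congr 2
              ring
          _ ≤ ENNReal.ofReal (D * η) * SS X (i + 1) := by
              refine mul_le_mul' (ENNReal.ofReal_le_ofReal ?_) le_rfl
              have h10 : (ρ (i + 1) * b i) ^ 2 ≤ η := by
                have h11 : 0 ≤ ρ (i + 1) * b i := mul_nonneg (hρ _).le hbi.le
                nlinarith
              exact mul_le_mul_of_nonneg_left h10 hD0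
      calc Nr m (Fi (sm H (i + 1))) + Lr m χ (ρ (i + 1)) (Fi (H (i + 1)))
          ≤ (Lr m χ (ρ (i + 1)) (Fi (sm H (i + 1))) + ENNReal.ofReal (D * η) * SS X (i + 1)) +
              Lr m χ (ρ (i + 1)) (Fi (H (i + 1))) :=
            add_le_add (hE.trans (add_le_add le_rfl hE2)) le_rfl
        _ = (Lr m χ (ρ (i + 1)) (Fi (sm H (i + 1))) + Lr m χ (ρ (i + 1)) (Fi (H (i + 1)))) +
              ENNReal.ofReal (D * η) * SS X (i + 1) := by ring
        _ ≤ Nr m (Fi (sm H (i + 1 + 1))) + ENNReal.ofReal (D * η) * SS X (i + 1) :=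
            add_le_add hA le_rfl
  have hind : ∀ n, n ≤ M → ∑ j ∈ Finset.range n, Lr m χ (ρ j) (Fi (H j)) ≤
      Nr m (Fi (sm H n)) + ENNReal.ofReal (D * η) * ∑ j ∈ Finset.range n, SS X j := by
    intro n
    induction n with
    | zero =>
      intro _
      simp
    | succ n ih =>
      intro hn
      have h9 := ih (by omega)
      have h10 := hstep n (by omega)
      rw [Finset.sum_range_succ, Finset.sum_range_succ, mul_add]
      calc ∑ j ∈ Finset.range n, Lr m χ (ρ j) (Fi (H j)) + Lr m χ (ρ n) (Fi (H n))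
          ≤ (Nr m (Fi (sm H n)) + ENNReal.ofReal (D * η) * ∑ j ∈ Finset.range n, SS X j) +
              Lr m χ (ρ n) (Fi (H n)) := add_le_add h9 le_rfl
        _ = (Nr m (Fi (sm H n)) + Lr m χ (ρ n) (Fi (H n))) +
              ENNReal.ofReal (D * η) * ∑ j ∈ Finset.range n, SS X j := by ring
        _ ≤ (Nr m (Fi (sm H (n + 1))) + ENNReal.ofReal (D * η) * SS X n) +
              ENNReal.ofReal (D * η) * ∑ j ∈ Finset.range n, SS X j := add_le_add h10 le_rfl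
        _ = _ := by ring
  have hfinal := hind M le_rfl
  have hSS : ∑ j ∈ Finset.range M, SS X j ≤ 2 * (ENNReal.ofReal C3 * Nr m (Fi (sm H M))) := by
    have h9 := SS_sum X M
    calc ∑ j ∈ Finset.range M, SS X j ≤ (∑ j ∈ Finset.range M, SS X j) + 2 * SS X M := le_self_add
      _ = 2 * ∑ j ∈ Finset.range M, X j := h9
      _ ≤ _ := mul_le_mul' le_rfl hXs
  refine hfinal.trans ?_
  calc Nr m (Fi (sm H M)) + ENNReal.ofReal (D * η) * ∑ j ∈ Finset.range M, SS X j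
      ≤ Nr m (Fi (sm H M)) + ENNReal.ofReal (D * η) *
          (2 * (ENNReal.ofReal C3 * Nr m (Fi (sm H M)))) :=
        add_le_add le_rfl (mul_le_mul' le_rfl hSS)
    _ = ENNReal.ofReal (1 + 2 * D * C3 * η) * Nr m (Fi (sm H M)) := by
        have e2 : (2 : ℝ≥0∞) = ENNReal.ofReal 2 := by norm_num
        rw [e2, ← mul_assoc, ← mul_assoc, ← ENNReal.ofReal_mul (by positivity),
          ← ENNReal.ofReal_mul (by positivity), ENNReal.ofReal_add (by norm_num) (by positivity),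
          add_mul, ENNReal.ofReal_one, one_mul]
        congr 3
        ring

theorem t (h5 : R_DMX) (h8 : R_LPF) : R_SUQ :=
  t0 ALL.bas ALL.cnv ALL.prd ALL.hlm h5 ALL.maj ALL.low h8

end Pool.Agent.H56.RP.SUQ
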