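import Pool.Agent.H10.RP.Stm
import Pool.Graph.R_pool_sql_team_seeded_63374d34.N892.BW.ALL

/-!
SGE: multipliers with signs on the band-pass pieces, even exponents.
-/

set_option autoImplicit false

open MeasureTheory ENNReal Filter Topology Complex
open scoped ComplexConjugate ContDiff

namespace Pool.Agent.H56.RP.SGE

open Pool.Agent.N892.BW Pool.Agent.H10.RP

theorem mono {β : ℕ → ℝ} (h0 : 0 < β 0) (h2 : ∀ i, 2 * β i ≤ β (i + 1)) :
    (∀ i, 0 < β i) ∧ Monotone β := by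
  have hp : ∀ i, 0 < β i := by
    intro i
    induction i with
    | zero => exact h0
    | succ i ih => linarith [h2 i]
  exact ⟨hp, monotone_nat_of_le_succ fun i => by linarith [h2 i, hp i]⟩

theorem growth {β : ℕ → ℝ} (h2 : ∀ i, 2 * β i ≤ β (i + 1)) (i j : ℕ) :
    2 ^ j * β i ≤ β (i + j) := by
  induction j with
  | zero => simp
  | succ j ih =>
    have := h2 (i + j)
    have e : i + (j + 1) = i + j + 1 := by omega
    rw [e, pow_succ]
    linarith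

theorem bp_smooth (β : ℕ → ℝ) (i : ℕ) : ContDiff ℝ ∞ (bp β i) := by
  have e : bp β i = SPL.D (β i) (β (i + 1)) := by
    funext ξ
    exact SPT.bp_eq β i ξ
  rw [e]
  exact SPL.D_smooth _ _

theorem bp_supp {β : ℕ → ℝ} (h0 : 0 < β 0) (h2 : ∀ i, 2 * β i ≤ β (i + 1)) (i : ℕ) (ξ : ℂ)
    (h : bp β i ξ ≠ 0) : β i ≤ ‖ξ‖ ∧ ‖ξ‖ ≤ 2 * β (i + 1) := by
  obtain ⟨hp, hm⟩ := mono h0 h2
  rw [SPT.bp_eq] at h
  exact (SPL.D_bd (hp _) (hm (Nat.le_succ _))).2 ξ h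

theorem Fi_const (c : ℂ) (g : ℂ → ℂ) (x : ℂ) : Fi (fun ξ => c * g ξ) x = c * Fi g x := by
  unfold Fi
  rw [← integral_const_mul]
  congr 1
  funext ξ
  ring

theorem sum_pow_le (L m : ℕ) (a : ℕ → ℝ≥0∞) (hm : 1 ≤ m) :
    (∑ i ∈ Finset.range L, a i) ^ m ≤ (L : ℝ≥0∞) ^ m * ∑ i ∈ Finset.range L, a i ^ m :=
  DMX.sum_pow_le L m a hm

theorem blocks {A : Type*} [AddCommMonoid A] (N : ℕ → A) (J M : ℕ) :
    ∑ i ∈ Finset.range (M * J), N i =
      ∑ o ∈ Finset.range J, ∑ q ∈ Finset.range M, N (q * J + o) := by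
  rw [Finset.sum_comm]
  induction M with
  | zero => simp
  | succ M ih => rw [Nat.succ_mul, Finset.sum_range_add, Finset.sum_range_succ, ih]

/-- the main statement, for sums over a number of terms divisible by `J` -/
theorem main (k : ℕ) (hk : 1 ≤ k) (J : ℕ) (hJ : 8 * (k : ℝ) ≤ 2 ^ (J - 1)) (hJ1 : 1 ≤ J) (C1 C2 : ℝ)
    (_hC1 : 0 ≤ C1)
    (hL : ∀ (L : ℕ) (β : ℕ → ℝ) (b : ℝ) (h : ℂ → ℂ), 0 < β 0 → (∀ i, 2 * β i ≤ β (i + 1)) → Bd 0 b h →
      ∫⁻ x, (∑ i ∈ Finset.range L, ‖Fi (fun ξ => bp β i ξ * h ξ) x‖ₑ ^ 2) ^ k ≤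
      ENNReal.ofReal C1 * Nm k (Fi h))
    (hC2 : 0 ≤ C2)
    (hR : ∀ (M : ℕ) (a b : ℕ → ℝ) (H : ℕ → ℂ → ℂ),
      Sep k M a b H → Nm k (Fi (sm H M)) ≤ ENNReal.ofReal C2 * Sq k M H)
    (M : ℕ) (s β : ℕ → ℝ) (b : ℝ) (h : ℂ → ℂ) (hs : ∀ i, |s i| ≤ 1) (h0 : 0 < β 0)
    (h2 : ∀ i, 2 * β i ≤ β (i + 1)) (hh : Bd 0 b h) :
    Nm k (Fi (fun ξ => ss (M * J) s β ξ * h ξ)) ≤
      ENNReal.ofReal ((J : ℝ) ^ (2 * k) * J * (C2 * C1)) * Nm k (Fi h) := by
  obtain ⟨hp, hmo⟩ := mono h0 h2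
  -- the pieces
  set P : ℕ → ℂ → ℂ := fun i ξ => (s i : ℂ) * (bp β i ξ * h ξ) with hP
  have hbp : ∀ i, Bd (β i) (2 * β (i + 1)) (fun ξ => bp β i ξ * h ξ) := fun i =>
    ⟨(bp_smooth β i).mul hh.1, fun ξ hξ => bp_supp h0 h2 i ξ (left_ne_zero_of_mul hξ)⟩
  have hbpb : ∀ i, Bd 0 b (fun ξ => bp β i ξ * h ξ) := fun i =>
    ⟨(bp_smooth β i).mul hh.1, fun ξ hξ => hh.2 ξ (right_ne_zero_of_mul hξ)⟩
  have hPb : ∀ i, Bd 0 b (P i) := fun i =>
    ⟨contDiff_const.mul (hbpb i).1, fun ξ hξ => (hbpb i).2 ξ (right_ne_zero_of_mul hξ)⟩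
  have hPs : ∀ i, Bd (β i) (2 * β (i + 1)) (P i) := fun i =>
    ⟨contDiff_const.mul (hbp i).1, fun ξ hξ => (hbp i).2 ξ (right_ne_zero_of_mul hξ)⟩
  have hFiP : ∀ i x, Fi (P i) x = (s i : ℂ) * Fi (fun ξ => bp β i ξ * h ξ) x := fun i x =>
    Fi_const _ _ x
  have hFn : ∀ i x, ‖Fi (P i) x‖ₑ ≤ ‖Fi (fun ξ => bp β i ξ * h ξ) x‖ₑ := by
    intro i x
    rw [hFiP, enorm_mul]
    have : ‖((s i : ℝ) : ℂ)‖ₑ ≤ 1 := by
      rw [← ofReal_norm, Complex.norm_real, Real.norm_eq_abs]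
      calc ENNReal.ofReal |s i| ≤ ENNReal.ofReal 1 := ENNReal.ofReal_le_ofReal (hs i)
        _ = 1 := ENNReal.ofReal_one
    calc _ ≤ 1 * ‖Fi (fun ξ => bp β i ξ * h ξ) x‖ₑ := mul_le_mul_left this _
      _ = _ := one_mul _
  -- the residue classes
  set Hc : ℕ → ℕ → ℂ → ℂ := fun o q => P (q * J + o) with hHc
  have hsep : ∀ o, Sep k M (fun q => β (q * J + o)) (fun q => 2 * β (q * J + o + 1)) (Hc o) := by
    intro o q _
    refine ⟨hp _, ?_, hPs _, ?_⟩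
    · have := h2 (q * J + o)
      have := hp (q * J + o)
      have := hp (q * J + o + 1)
      show β (q * J + o) ≤ 2 * β (q * J + o + 1)
      linarith
    · show 4 * (k : ℝ) * (2 * β (q * J + o + 1)) ≤ β ((q + 1) * J + o)
      have e : (q + 1) * J + o = (q * J + o + 1) + (J - 1) := by
        rw [Nat.succ_mul]
        omega
      rw [e]
      have := growth h2 (q * J + o + 1) (J - 1)
      calc 4 * (k : ℝ) * (2 * β (q * J + o + 1)) = 8 * (k : ℝ) * β (q * J + o + 1) := by ring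
        _ ≤ 2 ^ (J - 1) * β (q * J + o + 1) := mul_le_mul_of_nonneg_right hJ (hp _).le
        _ ≤ _ := this
  -- the bound for every class
  have hcl : ∀ o ∈ Finset.range J, Nm k (Fi (sm (Hc o) M)) ≤ ENNReal.ofReal (C2 * C1) * Nm k (Fi h) := by
    intro o ho
    have ho' := Finset.mem_range.1 ho
    refine (hR M _ _ (Hc o) (hsep o)).trans ?_
    rw [ENNReal.ofReal_mul hC2, mul_assoc]
    refine mul_le_mul_right ?_ _
    refine le_trans ?_ (hL (M * J) β b h h0 h2 hh)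
    unfold Sq
    refine lintegral_mono fun x => ?_
    refine pow_le_pow_left' ?_ _
    rw [SPL.sum_blocks]
    refine le_trans ?_ (Finset.single_le_sum (f := fun o => ∑ q ∈ Finset.range M,
      ‖Fi (fun ξ => bp β (q * J + o) ξ * h ξ) x‖ₑ ^ 2) (fun _ _ => zero_le) ho)
    refine Finset.sum_le_sum fun q _ => ?_
    exact pow_le_pow_left' (hFn _ x) 2
  -- the sum
  have hsmb : ∀ o, Bd 0 b (sm (Hc o) M) := fun o =>
    ⟨ContDiff.sum fun q _ => (hPb _).1, fun ξ hξ => by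
      obtain ⟨q, -, hq⟩ := Finset.exists_ne_zero_of_sum_ne_zero hξ
      exact (hPb _).2 ξ hq⟩
  have hid : (fun ξ => ss (M * J) s β ξ * h ξ) =
      fun ξ => ∑ o ∈ Finset.range J, sm (Hc o) M ξ := by
    funext ξ
    unfold ss sm
    rw [Finset.sum_mul]
    rw [blocks]
    refine Finset.sum_congr rfl fun o _ => Finset.sum_congr rfl fun q _ => ?_
    rw [hHc, hP]
    ring
  rw [hid]
  have hFs : ∀ x, Fi (fun ξ => ∑ o ∈ Finset.range J, sm (Hc o) M ξ) x =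
      ∑ o ∈ Finset.range J, Fi (sm (Hc o) M) x := fun x => SPL.Fi_sum J _ hsmb x
  have hmeas : ∀ o, Measurable fun x => ‖Fi (sm (Hc o) M) x‖ₑ ^ (2 * k) := fun o =>
    ((ALL.bas b _ (hsmb o)).1.measurable.enorm).pow_const _
  calc Nm k (Fi (fun ξ => ∑ o ∈ Finset.range J, sm (Hc o) M ξ))
      ≤ ∫⁻ x, (J : ℝ≥0∞) ^ (2 * k) * ∑ o ∈ Finset.range J, ‖Fi (sm (Hc o) M) x‖ₑ ^ (2 * k) := by
        unfold Nm
        refine lintegral_mono fun x => ?_
        show ‖Fi (fun ξ => ∑ o ∈ Finset.range J, sm (Hc o) M ξ) x‖ₑ ^ (2 * k) ≤ _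
        rw [hFs]
        refine le_trans (pow_le_pow_left' (enorm_sum_le _ _) _) ?_
        exact sum_pow_le J (2 * k) _ (by omega)
    _ = (J : ℝ≥0∞) ^ (2 * k) * ∑ o ∈ Finset.range J, Nm k (Fi (sm (Hc o) M)) := by
        rw [lintegral_const_mul' _ _ (ENNReal.pow_ne_top (ENNReal.natCast_ne_top _)),
          lintegral_finsetSum _ fun o _ => hmeas o]
        rfl
    _ ≤ (J : ℝ≥0∞) ^ (2 * k) * ((J : ℝ≥0∞) * (ENNReal.ofReal (C2 * C1) * Nm k (Fi h))) := by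
        refine mul_le_mul_right ?_ _
        refine (Finset.sum_le_card_nsmul _ _ _ hcl).trans (le_of_eq ?_)
        rw [Finset.card_range, nsmul_eq_mul]
    _ = _ := by
        rw [ENNReal.ofReal_mul (p := (J : ℝ) ^ (2 * k) * J) (by positivity),
          ENNReal.ofReal_mul (p := (J : ℝ) ^ (2 * k)) (by positivity),
          ENNReal.ofReal_pow (by positivity), ENNReal.ofReal_natCast]
        ring

theorem t : R_SGE := by
  intro k hk
  obtain ⟨C1, hC1, hL⟩ := ALL.lps k hk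
  obtain ⟨C2, hC2, hR⟩ := ALL.rev k hk
  obtain ⟨J0, hJ0⟩ : ∃ J0 : ℕ, 8 * (k : ℝ) < 2 ^ J0 := pow_unbounded_of_one_lt _ (by norm_num)
  refine ⟨((J0 + 1 : ℕ) : ℝ) ^ (2 * k) * ((J0 + 1 : ℕ) : ℝ) * (C2 * C1), by positivity, ?_⟩
  intro L s β b h hs h0 h2 hh
  have key := main k hk (J0 + 1) (by simpa using hJ0.le) (by omega) C1 C2 hC1 hL hC2 hR L
    (fun i => if i < L then s i else 0) β b h (fun i => by
      split_ifs
      · exact hs i
      · simp) h0 h2 hh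
  have e : ss (L * (J0 + 1)) (fun i => if i < L then s i else 0) β = ss L s β := by
    funext ξ
    unfold ss
    have h5 : ∑ i ∈ Finset.range L, ((if i < L then s i else 0 : ℝ) : ℂ) * bp β i ξ =
        ∑ i ∈ Finset.range (L * (J0 + 1)), ((if i < L then s i else 0 : ℝ) : ℂ) * bp β i ξ := by
      refine Finset.sum_subset (Finset.range_subset_range.2
        (Nat.le_mul_of_pos_right L (Nat.succ_pos J0))) ?_
      intro i _ hi
      rw [Finset.mem_range] at hi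
      simp [hi]
    refine h5.symm.trans (Finset.sum_congr rfl fun i hi => ?_)
    rw [if_pos (Finset.mem_range.1 hi)]
  rw [e] at key
  exact key

end Pool.Agent.H56.RP.SGE
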